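import Pool.Agent.ZCyc.Basic

/-!
# Residue fields

A function which is regular at a place `v` of a field which is algebraic over `k(X)` has a value
in the algebraically closed field `k`.
-/

open Polynomial

namespace Pool.Agent.DCI57

open Pool.Agent.ZCyc

universe u w

private lemma at_alg {k F : Type*} [Field k] [Field F] [Algebra k F] [Algebra (RatFunc k) F]
    [IsScalarTower k (RatFunc k) F] [Algebra.IsAlgebraic (RatFunc k) F] {t : F}
    (ht : Transcendental k t) : Algebra.IsAlgebraic (IntermediateField.adjoin k {t}) F := by
  have h1 : IsTranscendenceBasis k (fun _ : Unit => (X : k[X])) := IsTranscendenceBasis.polynomial _ _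
  have h0 : Algebra.IsAlgebraic k[X] (RatFunc k) := IsLocalization.isAlgebraic _ (nonZeroDivisors k[X])
  have h2 := h1.algebraMap_comp (A := RatFunc k)
  have h3 := h2.algebraMap_comp (A := F)
  have h4 := h3.lift_cardinalMk_eq_trdeg
  have h5 : AlgebraicIndependent k (fun _ : Unit => t) :=
    algebraicIndependent_unique_type_iff.2 ht
  have h6 := h5.isTranscendenceBasis_of_lift_trdeg_le_of_finite h4.ge
  have h7 := h6.isAlgebraic_field
  rwa [Set.range_const] at h7

private lemma at_mem {k F : Type*} [Field k] [Field F] [Algebra k F] (P : Place k F)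
    {K : IntermediateField k F} (hK : ∀ z ∈ K, z ∈ P.ring) {z : F} (hz : IsAlgebraic K z) :
    z ∈ P.ring := by
  have h1 : IsIntegral K z := hz.isIntegral
  obtain ⟨p, hp, hpz⟩ := h1
  let g : K →+* P.ring := (K.val : K →+* F).codRestrict P.ring.toSubring fun c => hK c c.2
  have h2 : IsIntegral P.ring z := by
    refine ⟨p.map g, hp.map g, ?_⟩
    rw [eval₂_map]
    exact hpz
  obtain ⟨y, hy⟩ := IsIntegrallyClosed.isIntegral_iff.1 h2
  rw [← hy]
  exact y.2

private lemma at_algebraic {k F : Type*} [Field k] [IsAlgClosed k] [Field F] [Algebra k F] {t : F}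
    (ht : IsAlgebraic k t) : ∃ c, algebraMap k F c = t :=
  minpoly.mem_range_of_degree_eq_one k t
    (IsAlgClosed.degree_eq_one_of_irreducible k (minpoly.irreducible ht.isIntegral))

/-- D1: residue fields -/
theorem exists_at {k : Type u} [Field k] [IsAlgClosed k] {F : Type*} [Field F] [Algebra k F]
    [Algebra (RatFunc k) F] [IsScalarTower k (RatFunc k) F] [Algebra.IsAlgebraic (RatFunc k) F]
    (v : Place k F) {f : F} (hf : f ∈ v.ring) : ∃ c : k, v.At f c := by
  by_cases halg : IsAlgebraic k f
  · obtain ⟨c, rfl⟩ := at_algebraic halg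
    exact ⟨c, Place.at_const c⟩
  by_contra hcon
  push Not at hcon
  -- nonzero polynomials in `f` do not vanish at `v`
  have h1 : ∀ p : k[X], p ≠ 0 → ¬ v.Vanishes (aeval f p) := by
    intro p hp hv
    have hs := (IsAlgClosed.splits p).eq_prod_roots
    rw [hs, _root_.map_mul, aeval_C] at hv
    have h2 : v.Vanishes (aeval f (Multiset.map (fun α => X - C α) p.roots).prod) := by
      have h3 := Place.Vanishes.mul' v hv (v.const_mem (p.leadingCoeff)⁻¹)
      rw [map_inv₀, inv_mul_cancel_left₀ (by simpa using hp)] at h3
      exact h3
    have h4 : ∀ s : Multiset k,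
        ¬ v.Vanishes (aeval f (Multiset.map (fun α => X - C α) s).prod) := by
      intro s
      induction s using Multiset.induction_on with
      | empty =>
        intro h5
        have := v.const_unit (one_ne_zero (α := k))
        apply this
        simpa using h5
      | cons b s ih =>
        intro h5
        rw [Multiset.map_cons, Multiset.prod_cons, _root_.map_mul, v.vanishes_iff,
          _root_.map_mul] at h5
        have h6 := hcon b
        rw [Place.At, v.vanishes_iff, not_lt] at h6
        rw [v.vanishes_iff, not_lt] at ih
        have h7 : aeval f (X - C b) = f - algebraMap k F b := by simp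
        rw [h7] at h5
        exact absurd h5 (not_lt.2 (one_le_mul h6 ih))
    exact h4 _ h2
  -- `k(f)` is contained in the ring
  have h2 : ∀ z ∈ IntermediateField.adjoin k {f}, z ∈ v.ring := by
    intro z hz
    rw [IntermediateField.mem_adjoin_simple_iff] at hz
    obtain ⟨r, s, rfl⟩ := hz
    have hr : ∀ p : k[X], aeval f p ∈ v.ring := by
      intro p
      rw [aeval_eq_sum_range]
      apply sum_mem
      intro i _
      rw [Algebra.smul_def]
      exact mul_mem (v.const_mem _) (pow_mem hf i)
    rw [div_eq_mul_inv]
    apply mul_mem (hr r)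
    by_cases hs : s = 0
    · rw [hs, map_zero, inv_zero]
      exact zero_mem _
    · have h3 := h1 s hs
      rw [v.vanishes_iff_or] at h3
      push Not at h3
      exact h3.2
  -- the ring is integrally closed
  have h3 := at_alg (k := k) (t := f) halg
  apply v.ne_top
  rw [eq_top_iff]
  intro z _
  exact at_mem v h2 (h3.isAlgebraic z)

end Pool.Agent.DCI57
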