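import Mathlib

/-!
# The covering
-/

set_option autoImplicit false

open Polynomial

universe u

namespace Pool.Agent.DCI57

/-- D2: the covering -/
theorem exists_cover {k : Type u} [Field k] [IsAlgClosed k] [CharZero k] {m : ℕ} (hm : 0 < m)
    {J : Type} [Finite J] (P : J → k[X]) : ∃ (F : Type u) (_ : Field F) (_ : Algebra k F)
    (_ : Algebra (RatFunc k) F) (_ : IsScalarTower k (RatFunc k) F)
    (_ : FiniteDimensional (RatFunc k) F) (_ : IsGalois (RatFunc k) F) (x : J → F),
    ∀ j, x j ^ m = algebraMap (RatFunc k) F (algebraMap k[X] (RatFunc k) (P j)) := by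
  classical
  let Ω := AlgebraicClosure (RatFunc k)
  have hx : ∀ j, ∃ x : Ω, x ^ m = algebraMap (RatFunc k) Ω (algebraMap k[X] (RatFunc k) (P j)) :=
    fun j => IsAlgClosed.exists_pow_nat_eq _ hm
  choose x hx using hx
  let S : Set Ω := Set.range x
  let L1 : IntermediateField (RatFunc k) Ω := IntermediateField.adjoin (RatFunc k) S
  have hfd : FiniteDimensional (RatFunc k) L1 := by
    have : Finite S := (Set.finite_range x).to_subtype
    exact IntermediateField.finiteDimensional_adjoin fun z _ =>
      Algebra.IsIntegral.isIntegral z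
  let F : IntermediateField (RatFunc k) Ω := IntermediateField.normalClosure (RatFunc k) L1 Ω
  have hLF : L1 ≤ F := IntermediateField.le_normalClosure L1
  have hxF : ∀ j, x j ∈ F := fun j =>
    hLF (IntermediateField.subset_adjoin (RatFunc k) S ⟨j, rfl⟩)
  have : Normal (RatFunc k) F := normalClosure.normal (RatFunc k) L1 Ω
  have : FiniteDimensional (RatFunc k) F := normalClosure.is_finiteDimensional (RatFunc k) L1 Ω
  have : IsGalois (RatFunc k) F := {}
  refine ⟨F, inferInstance, inferInstance, inferInstance, inferInstance, inferInstance,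
    inferInstance, fun j => ⟨x j, hxF j⟩, fun j => ?_⟩
  apply (algebraMap F Ω).injective
  rw [map_pow]
  exact hx j

end Pool.Agent.DCI57
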