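import Pool.Agent.DCI57.Op
import Pool.Agent.DCI57.At
import Pool.Agent.DCI57.Cover
import Pool.Agent.ZCyc.Places

/-!
# The relation given by a rational curve in the quotient
-/

open Polynomial
open scoped LinearAlgebra.Projectivization

namespace Pool.Agent.DCI57

open Pool.Agent.ZCyc

universe u w

variable {k : Type u} [Field k] {J : Type} [Fintype J] {m : ℕ}

/-- a morphism has a value at every point -/
theorem exists_value [IsAlgClosed k] {F : Type*} [Field F] [Algebra k F]
    [Algebra (RatFunc k) F] [IsScalarTower k (RatFunc k) F] [Algebra.IsAlgebraic (RatFunc k) F]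
    (v : Place k F) {x : J → F} (hx : ∃ j, x j ≠ 0) : ∃ p, IsValue v x p := by
  classical
  obtain ⟨j₀, hj₀⟩ := hx
  obtain ⟨i, -, hi⟩ := Finset.exists_max_image Finset.univ (fun j => v.ring.valuation (x j))
    ⟨j₀, Finset.mem_univ j₀⟩
  have hxi : x i ≠ 0 := by
    intro h0
    have h1 := hi j₀ (Finset.mem_univ j₀)
    simp only [h0, map_zero] at h1
    exact hj₀ ((map_eq_zero _).1 (le_zero_iff.1 h1))
  have h2 : ∀ j, ∃ c : k, v.At (x j / x i) c := by
    intro j
    apply exists_at
    rw [← v.ring.valuation_le_one_iff, map_div₀]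
    exact div_le_one_of_le₀ (hi j (Finset.mem_univ j)) zero_le
  choose c hc using h2
  have hci : c i = 1 := by
    have h3 := hc i
    rw [div_self hxi] at h3
    exact h3.unique (by simpa using Place.at_const (v := v) (1 : k))
  have hc0 : c ≠ 0 := by
    intro h0
    rw [h0] at hci
    exact zero_ne_one hci
  obtain ⟨a, ha, h4⟩ := mk_rep_exists hc0
  refine ⟨Projectivization.mk k c hc0, algebraMap k F a * (x i)⁻¹, fun j => ?_⟩
  have h5 := (Place.at_const (v := v) a).mul (hc j)
  rw [← h4] at h5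
  have h6 : algebraMap k F a * (x i)⁻¹ * x j = algebraMap k F a * (x j / x i) := by
    rw [div_eq_mul_inv]
    ring
  rw [h6]
  exact h5

omit [Fintype J] in
/-- elements of the Galois group act by roots of unity on the coordinates -/
lemma exists_twist [NeZero m] {ζ : kˣ} (hζ : IsPrimitiveRoot (ζ : k) m) {F : Type*} [Field F]
    [Algebra k F] {x : J → F} {τ : F → F} (hτ : ∀ j, τ (x j) ^ m = x j ^ m) :
    ∃ t : J → ZMod m, ∀ j, τ (x j) = algebraMap k F ((ζ ^ (t j).val : kˣ) : k) * x j := by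
  have hζ' : IsPrimitiveRoot (algebraMap k F (ζ : k)) m :=
    hζ.map_of_injective (algebraMap k F).injective
  have h1 : ∀ j, ∃ i : ℕ, i < m ∧ τ (x j) = algebraMap k F ((ζ : k) ^ i) * x j := by
    intro j
    by_cases hj : x j = 0
    · refine ⟨0, NeZero.pos m, ?_⟩
      have h2 := hτ j
      rw [hj, zero_pow (NeZero.ne m)] at h2
      rw [hj, mul_zero]
      exact pow_eq_zero_iff (NeZero.ne m) |>.1 h2
    · have h2 : (τ (x j) / x j) ^ m = 1 := by
        rw [div_pow, hτ j, div_self (pow_ne_zero _ hj)]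
      obtain ⟨i, hi, h3⟩ := hζ'.eq_pow_of_pow_eq_one h2
      refine ⟨i, hi, ?_⟩
      rw [map_pow, h3, div_mul_cancel₀ _ hj]
  choose i hi h2 using h1
  refine ⟨fun j => (i j : ZMod m), fun j => ?_⟩
  rw [h2 j, ZMod.val_cast_of_lt (hi j)]
  push_cast
  rfl

lemma algebraMap_sub_C (F : Type*) [Field F] [Algebra k F] [Algebra (RatFunc k) F]
    [IsScalarTower k (RatFunc k) F] (a : k) :
    algebraMap (RatFunc k) F (RatFunc.X - RatFunc.C a) =
      algebraMap (RatFunc k) F RatFunc.X - algebraMap k F a := by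
  rw [map_sub, ← RatFunc.algebraMap_eq_C, ← IsScalarTower.algebraMap_apply]

/-- values of polynomials -/
lemma at_poly {F : Type*} [Field F] [Algebra k F] [Algebra (RatFunc k) F]
    [IsScalarTower k (RatFunc k) F] {v : Place k F} {a : k}
    (hv : v.Vanishes (algebraMap (RatFunc k) F (RatFunc.X - RatFunc.C a))) (P : k[X]) :
    v.At (algebraMap (RatFunc k) F (algebraMap k[X] (RatFunc k) P)) (P.eval a) := by
  have h1 : v.At (algebraMap (RatFunc k) F RatFunc.X) a := by
    unfold Place.At
    rw [← algebraMap_sub_C]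
    exact hv
  have h2 := h1.aeval P
  have h3 : Polynomial.aeval (algebraMap (RatFunc k) F RatFunc.X) P =
      algebraMap (RatFunc k) F (algebraMap k[X] (RatFunc k) P) := by
    rw [Polynomial.aeval_algebraMap_apply]
    congr 1
    rw [← RatFunc.algebraMap_X, Polynomial.aeval_algebraMap_apply, Polynomial.aeval_X_left_apply]
  rwa [h3] at h2

/-- points of the diagonal complete intersection with given `m`-th powers -/
lemma exists_point [IsAlgClosed k] [NeZero m] {r : ℕ} {c : Fin r → J → k} {v : J → k}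
    (hv : v ≠ 0) (hc : ∀ i, ∑ j, c i j * v j = 0) :
    ∃ q ∈ Diag m c, ∃ e : k, e ≠ 0 ∧ ∀ j, v j = e * q.rep j ^ m := by
  have h1 : ∀ j, ∃ y : k, y ^ m = v j := fun j => IsAlgClosed.exists_pow_nat_eq _ (NeZero.pos m)
  choose y hy using h1
  have hy0 : y ≠ 0 := by
    rintro rfl
    apply hv
    funext j
    rw [← hy j]
    simp [NeZero.ne m]
  obtain ⟨a, ha, h2⟩ := mk_rep_exists hy0
  have h3 : ∀ j, v j = (a ^ m)⁻¹ * (Projectivization.mk k y hy0).rep j ^ m := by
    intro j
    rw [h2 j, mul_pow, hy, inv_mul_cancel_left₀ (pow_ne_zero _ ha)]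
  refine ⟨Projectivization.mk k y hy0, ?_, (a ^ m)⁻¹, inv_ne_zero (pow_ne_zero _ ha), h3⟩
  intro i
  have h4 : ∀ j, c i j * (Projectivization.mk k y hy0).rep j ^ m = a ^ m * (c i j * v j) := by
    intro j
    rw [h2 j, mul_pow, hy]
    ring
  rw [Finset.sum_congr rfl fun j _ => h4 j, ← Finset.mul_sum, hc i, mul_zero]

variable [DecidableEq J] [NeZero m] {R : Type w} [Field R] [CharZero R]

/-- The relation between the points `p` and `q` given by a rational curve in the quotient, on the
normalisation of whose inverse image the character is trivial. -/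
theorem relation [IsAlgClosed k] [CharZero k] {ζ : kˣ} (hζ : IsPrimitiveRoot (ζ : k) m) {r : ℕ}
    {c : Fin r → J → k} {P : J → k[X]} (hP : ∀ i, ∑ j, C (c i j) * P j = 0) {a b : k}
    {p q : ℙ k (J → k)} {d e : k} (hd : d ≠ 0) (he : e ≠ 0)
    (hp : ∀ j, (P j).eval a = d * p.rep j ^ m) (hq : ∀ j, (P j).eval b = e * q.rep j ^ m)
    (ψ : AddChar (J → ZMod m) R)
    (hψ : ∀ {F : Type u} [Field F] [Algebra k F] [Algebra (RatFunc k) F]
      [IsScalarTower k (RatFunc k) F] (x : J → F),
      (∀ j, x j ^ m = algebraMap (RatFunc k) F (algebraMap k[X] (RatFunc k) (P j))) →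
      ∀ (τ : F ≃ₐ[RatFunc k] F) (t : J → ZMod m),
      (∀ j, τ (x j) = algebraMap k F ((ζ ^ (t j).val : kˣ) : k) * x j) → ψ t = 1) :
    ∃ g h : J → ZMod m, op ζ ψ (Finsupp.single (act ζ g p) 1) -
      op ζ ψ (Finsupp.single (act ζ h q) 1) ∈ ratEquiv R (Diag m c) := by
  classical
  have hζ1 : ζ ^ m = 1 := by
    apply Units.ext
    push_cast
    exact hζ.pow_eq_one
  obtain ⟨F, _, _, _, _, _, _, x, hx⟩ := exists_cover (NeZero.pos m) P
  -- the morphism
  have hX0 : ∃ j, x j ≠ 0 := by
    have h1 : ∃ j, p.rep j ≠ 0 := by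
      by_contra hcon
      push Not at hcon
      exact p.rep_nonzero (funext hcon)
    obtain ⟨j, hj⟩ := h1
    refine ⟨j, fun h0 => ?_⟩
    have h2 := hx j
    rw [h0, zero_pow (NeZero.ne m)] at h2
    have h3 : P j = 0 := by
      have h4 := (map_eq_zero _).1 h2.symm
      exact (map_eq_zero_iff _ (RatFunc.algebraMap_injective k)).1 h4
    have h5 := hp j
    rw [h3, eval_zero] at h5
    exact mul_ne_zero hd (pow_ne_zero _ hj) h5.symm
  have hval : ∀ v : Place k F, ∃ p, IsValue v x p := fun v => exists_value v hX0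
  choose φ hφ using hval
  have hsum : ∀ i, ∑ j, algebraMap k F (c i j) * x j ^ m = 0 := by
    intro i
    have h1 : ∀ j, algebraMap k F (c i j) * x j ^ m =
        algebraMap (RatFunc k) F (algebraMap k[X] (RatFunc k) (C (c i j) * P j)) := by
      intro j
      rw [hx j, map_mul, map_mul, RatFunc.algebraMap_C, ← RatFunc.algebraMap_eq_C,
        ← IsScalarTower.algebraMap_apply k (RatFunc k) F]
    rw [Finset.sum_congr rfl fun j _ => h1 j, ← map_sum, ← map_sum, hP i, map_zero, map_zero]
  have hφX : ∀ v, φ v ∈ Diag m c := fun v => (hφ v).mem_Diag hsum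
  -- the points above `a` and `b`
  have htr : Transcendental k (algebraMap (RatFunc k) F RatFunc.X) := by
    rw [transcendental_algebraMap_iff (algebraMap (RatFunc k) F).injective]
    exact RatFunc.transcendental_X
  obtain ⟨v, hv⟩ := exists_place htr a
  obtain ⟨w, hw⟩ := exists_place htr b
  have hv' : v.Vanishes (algebraMap (RatFunc k) F (RatFunc.X - RatFunc.C a)) := by
    rw [algebraMap_sub_C]
    exact hv
  have hw' : w.Vanishes (algebraMap (RatFunc k) F (RatFunc.X - RatFunc.C b)) := by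
    rw [algebraMap_sub_C]
    exact hw
  obtain ⟨g, hg⟩ := (hφ v).eq_act hζ hd (p := p) (fun j => by
    rw [hx j, ← hp j]
    exact at_poly hv' (P j))
  obtain ⟨h, hh⟩ := (hφ w).eq_act hζ he (p := q) (fun j => by
    rw [hx j, ← hq j]
    exact at_poly hw' (P j))
  -- conjugate points
  have hconj : ∀ (u : Place k F) (τ : F ≃ₐ[RatFunc k] F),
      op ζ ψ (Finsupp.single (φ (u.map (τ.restrictScalars k))) 1) =
        op ζ ψ (Finsupp.single (φ u) 1) := by
    intro u τ
    obtain ⟨t, ht⟩ := exists_twist hζ (x := x) (τ := τ.symm) (fun j => by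
      rw [← map_pow, hx j, AlgEquiv.commutes])
    have h1 := (hφ u).map (τ.restrictScalars k) (g := t) ht
    rw [(hφ _).unique h1, ← op_act hζ1 ψ t (φ u), hψ x hx τ.symm t ht, one_smul]
  have hgen := op_mem (ζ := ζ) ψ (X := Diag m c) (fun g p hp => act_mem hζ1 hp g)
    (gen_mem (R := R) hφ hφX hv' hw')
  rw [map_sum] at hgen
  have h1 : ∀ τ : F ≃ₐ[RatFunc k] F,
      op ζ ψ (Finsupp.single (φ (v.map (τ.restrictScalars k))) 1 -
        Finsupp.single (φ (w.map (τ.restrictScalars k))) 1) =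
      op ζ ψ (Finsupp.single (φ v) 1) - op ζ ψ (Finsupp.single (φ w) 1) := by
    intro τ
    rw [map_sub, hconj, hconj]
  rw [Finset.sum_congr rfl fun τ _ => h1 τ, Finset.sum_const, ← Nat.cast_smul_eq_nsmul R] at hgen
  have hcard : (((Finset.univ : Finset (F ≃ₐ[RatFunc k] F)).card : ℕ) : R) ≠ 0 := by
    rw [Nat.cast_ne_zero, Finset.card_ne_zero]
    exact ⟨1, Finset.mem_univ _⟩
  refine ⟨g, h, ?_⟩
  rw [← hg, ← hh]
  exact (Submodule.smul_mem_iff _ hcard).1 hgen

end Pool.Agent.DCI57
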