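import Pool.Agent.DCI57.Act

/-!
# The operator attached to a character
-/

open scoped LinearAlgebra.Projectivization

namespace Pool.Agent.DCI57

open Pool.Agent.ZCyc

universe u w

variable {k : Type u} [Field k] {J : Type} [Fintype J] [DecidableEq J] {m : ℕ} [NeZero m]
  {R : Type w} [Field R]

/-- the operator `p ↦ ∑ g, ψ g • (act ζ g p)` -/
noncomputable def op (ζ : kˣ) (ψ : AddChar (J → ZMod m) R) :
    (ℙ k (J → k) →₀ R) →ₗ[R] (ℙ k (J → k) →₀ R) :=
  Finsupp.linearCombination R fun p => ∑ g : J → ZMod m, Finsupp.single (act ζ g p) (ψ g)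

lemma op_single (ζ : kˣ) (ψ : AddChar (J → ZMod m) R) (p : ℙ k (J → k)) :
    op ζ ψ (Finsupp.single p 1) = ∑ g : J → ZMod m, Finsupp.single (act ζ g p) (ψ g) := by
  rw [op, Finsupp.linearCombination_single, one_smul]

/-- the operator on a twisted point -/
lemma op_act {ζ : kˣ} (hζ : ζ ^ m = 1) (ψ : AddChar (J → ZMod m) R) (h : J → ZMod m)
    (p : ℙ k (J → k)) : ψ h • op ζ ψ (Finsupp.single (act ζ h p) 1) =
      op ζ ψ (Finsupp.single p 1) := by
  rw [op_single, op_single, Finset.smul_sum]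
  rw [← Equiv.sum_comp (Equiv.addRight h) fun g => Finsupp.single (act ζ g p) (ψ g)]
  apply Finset.sum_congr rfl
  intro g _
  rw [act_act hζ, Equiv.coe_addRight, Finsupp.smul_single, smul_eq_mul, AddChar.map_add_eq_mul,
    mul_comm]

/-- points fixed by an element on which the character is nontrivial -/
lemma op_eq_zero {ζ : kˣ} (hζ : ζ ^ m = 1) (ψ : AddChar (J → ZMod m) R) {h : J → ZMod m}
    {p : ℙ k (J → k)} (hp : act ζ h p = p) (hψ : ψ h ≠ 1) :
    op ζ ψ (Finsupp.single p 1) = 0 := by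
  have h1 := op_act hζ ψ h p
  rw [hp] at h1
  have h2 : (ψ h - 1) • op ζ ψ (Finsupp.single p 1) = 0 := by
    rw [sub_smul, one_smul, h1, sub_self]
  rcases smul_eq_zero.1 h2 with h3 | h3
  · exact absurd (sub_eq_zero.1 h3) hψ
  · exact h3

omit [Fintype J] [DecidableEq J] in
/-- the standard generators of the group of cycles which are rationally equivalent to zero -/
lemma gen_mem {X : Set (ℙ k (J → k))} {F : Type u} [Field F] [Algebra k F]
    [Algebra (RatFunc k) F] [IsScalarTower k (RatFunc k) F] [FiniteDimensional (RatFunc k) F]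
    [IsGalois (RatFunc k) F] {x : J → F} {φ : Place k F → ℙ k (J → k)}
    (h1 : ∀ v, IsValue v x (φ v)) (h2 : ∀ v, φ v ∈ X) {a b : k} {v w : Place k F}
    (hv : v.Vanishes (algebraMap (RatFunc k) F (RatFunc.X - RatFunc.C a)))
    (hw : w.Vanishes (algebraMap (RatFunc k) F (RatFunc.X - RatFunc.C b))) :
    ∑ τ : F ≃ₐ[RatFunc k] F, (Finsupp.single (φ (v.map (τ.restrictScalars k))) 1 -
      Finsupp.single (φ (w.map (τ.restrictScalars k))) 1) ∈ ratEquiv R X :=
  Submodule.subset_span ⟨F, _, _, _, inferInstance, inferInstance, inferInstance, x, φ, h1, h2, a,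
    b, v, w, hv, hw, rfl⟩

/-- the operator preserves rational equivalence -/
lemma op_mem {ζ : kˣ} (ψ : AddChar (J → ZMod m) R) {X : Set (ℙ k (J → k))}
    (hX : ∀ g : J → ZMod m, ∀ p ∈ X, act ζ g p ∈ X) {z : ℙ k (J → k) →₀ R}
    (hz : z ∈ ratEquiv R X) : op ζ ψ z ∈ ratEquiv R X := by
  have hle : ratEquiv R X ≤ (ratEquiv R X).comap (op ζ ψ) := by
    conv_lhs => rw [ratEquiv]
    rw [Submodule.span_le]
    rintro _ ⟨F, _, _, _, _, _, _, x, φ, h1, h2, a, b, v, w, hv, hw, rfl⟩
    rw [SetLike.mem_coe, Submodule.mem_comap, map_sum]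
    have h3 : ∀ τ : F ≃ₐ[RatFunc k] F,
        op ζ ψ (Finsupp.single (φ (v.map (τ.restrictScalars k))) 1 -
          Finsupp.single (φ (w.map (τ.restrictScalars k))) 1) =
        ∑ g : J → ZMod m, ψ g • (Finsupp.single (act ζ g (φ (v.map (τ.restrictScalars k)))) 1 -
          Finsupp.single (act ζ g (φ (w.map (τ.restrictScalars k)))) 1) := by
      intro τ
      rw [map_sub, op_single, op_single, ← Finset.sum_sub_distrib]
      apply Finset.sum_congr rfl
      intro g _
      rw [smul_sub, Finsupp.smul_single, Finsupp.smul_single, smul_eq_mul, mul_one]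
    rw [Finset.sum_congr rfl fun τ _ => h3 τ, Finset.sum_comm]
    apply Submodule.sum_mem
    intro g _
    rw [← Finset.smul_sum]
    apply Submodule.smul_mem
    exact gen_mem (x := fun j => algebraMap k F ((ζ ^ (g j).val : kˣ) : k) * x j)
      (φ := fun v => act ζ g (φ v)) (fun v => (h1 v).act ζ g) (fun v => hX g _ (h2 v)) hv hw
  exact hle hz

end Pool.Agent.DCI57
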