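import Pool.Agent.DCI57.Defs
import Pool.Agent.ZCyc.Basic

/-!
# The action of `μ_m ^ J` on projective space, values of morphisms
-/

open scoped LinearAlgebra.Projectivization

namespace Pool.Agent.DCI57

open Pool.Agent.ZCyc

universe u w

variable {k : Type u} [Field k] {J : Type} {m : ℕ}

/-- two points with proportional representatives are equal -/
lemma eq_of_rep {p q : ℙ k (J → k)} {a : k} (h : ∀ j, p.rep j = a * q.rep j) : p = q := by
  have ha : a ≠ 0 := by
    rintro rfl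
    apply p.rep_nonzero
    funext j
    simpa using h j
  rw [← Projectivization.mk_rep p, ← Projectivization.mk_rep q, Projectivization.mk_eq_mk_iff']
  refine ⟨a, ?_⟩
  funext j
  simp [h j]

lemma mk_rep_exists {x : J → k} (hx : x ≠ 0) :
    ∃ a : k, a ≠ 0 ∧ ∀ j, (Projectivization.mk k x hx).rep j = a * x j := by
  obtain ⟨a, ha⟩ := Projectivization.exists_smul_eq_mk_rep k x hx
  refine ⟨a, a.ne_zero, fun j => ?_⟩
  rw [← ha]
  rfl

/-- the representative of `act ζ g p` -/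
lemma act_rep (ζ : kˣ) (g : J → ZMod m) (p : ℙ k (J → k)) :
    ∃ a : k, a ≠ 0 ∧ ∀ j, (act ζ g p).rep j = a * (((ζ ^ (g j).val : kˣ) : k) * p.rep j) :=
  mk_rep_exists _

lemma zeta_val_add [NeZero m] {ζ : kˣ} (hζ : ζ ^ m = 1) (a b : ZMod m) :
    ζ ^ (a + b).val = ζ ^ a.val * ζ ^ b.val := by
  rw [ZMod.val_add, ← pow_add]
  conv_rhs => rw [← Nat.mod_add_div (a.val + b.val) m, pow_add, pow_mul, hζ, one_pow, mul_one]

lemma act_act [NeZero m] {ζ : kˣ} (hζ : ζ ^ m = 1) (g h : J → ZMod m) (p : ℙ k (J → k)) :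
    act ζ g (act ζ h p) = act ζ (g + h) p := by
  obtain ⟨a, ha, h1⟩ := act_rep ζ g (act ζ h p)
  obtain ⟨b, hb, h2⟩ := act_rep ζ h p
  obtain ⟨c, hc, h3⟩ := act_rep ζ (g + h) p
  apply eq_of_rep (a := a * b * c⁻¹)
  intro j
  rw [h1, h2, h3, Pi.add_apply, zeta_val_add hζ]
  push_cast
  field_simp

lemma act_zero [NeZero m] (ζ : kˣ) (p : ℙ k (J → k)) : act ζ (0 : J → ZMod m) p = p := by
  obtain ⟨a, ha, h1⟩ := act_rep ζ (0 : J → ZMod m) p
  apply eq_of_rep (a := a)
  intro j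
  rw [h1]
  simp

/-- constant twists act trivially -/
lemma act_const (ζ : kˣ) (t : ZMod m) (p : ℙ k (J → k)) :
    act ζ (fun _ => t) p = p := by
  obtain ⟨a, ha, h1⟩ := act_rep ζ (fun _ : J => t) p
  apply eq_of_rep (a := a * ((ζ ^ t.val : kˣ) : k))
  intro j
  rw [h1]
  ring

/-- twists supported where the point vanishes act trivially -/
lemma act_of_zero [NeZero m] (ζ : kˣ) {g : J → ZMod m} {p : ℙ k (J → k)}
    (h : ∀ j, g j ≠ 0 → p.rep j = 0) : act ζ g p = p := by
  obtain ⟨a, ha, h1⟩ := act_rep ζ g p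
  apply eq_of_rep (a := a)
  intro j
  rw [h1]
  by_cases hj : g j = 0
  · simp [hj]
  · simp [h j hj]

lemma act_rep_zero (ζ : kˣ) (g : J → ZMod m) (p : ℙ k (J → k)) (j : J) :
    (act ζ g p).rep j = 0 ↔ p.rep j = 0 := by
  obtain ⟨a, ha, h1⟩ := act_rep ζ g p
  rw [h1]
  simp [ha]

lemma act_mem [Fintype J] {ζ : kˣ} (hζ : ζ ^ m = 1) {r : ℕ} {c : Fin r → J → k}
    {p : ℙ k (J → k)} (hp : p ∈ Diag m c) (g : J → ZMod m) : act ζ g p ∈ Diag m c := by
  intro i
  obtain ⟨a, ha, h1⟩ := act_rep ζ g p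
  have h2 : ∀ j, c i j * (act ζ g p).rep j ^ m = a ^ m * (c i j * p.rep j ^ m) := by
    intro j
    rw [h1, mul_pow, mul_pow]
    have : (((ζ ^ (g j).val : kˣ) : k)) ^ m = 1 := by
      rw [← Units.val_pow_eq_pow_val, ← pow_mul, mul_comm, pow_mul, hζ, one_pow, Units.val_one]
    rw [this]
    ring
  rw [Finset.sum_congr rfl fun j _ => h2 j, ← Finset.mul_sum, hp i, mul_zero]

/-! ### Values of morphisms -/

section

variable {F : Type*} [Field F] [Algebra k F] {v : Place k F} {x : J → F} {p q : ℙ k (J → k)}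

lemma isValue_iff : IsValue v x p ↔ ∃ g : F, ∀ j, v.At (g * x j) (p.rep j) := Iff.rfl

lemma IsValue.unique (h : IsValue v x p) (h' : IsValue v x q) : p = q := by
  obtain ⟨g, hg⟩ := isValue_iff.1 h
  obtain ⟨g', hg'⟩ := isValue_iff.1 h'
  have hne : ∃ i, q.rep i ≠ 0 := by
    by_contra hcon
    push Not at hcon
    exact q.rep_nonzero (funext hcon)
  obtain ⟨i, hi⟩ := hne
  have hgi : g' * x i ≠ 0 := by
    intro h0
    have h1 := hg' i
    rw [h0] at h1
    exact hi (h1.unique (by simpa using Place.at_const (v := v) (0 : k)))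
  have hg'0 : g' ≠ 0 := fun h0 => hgi (by rw [h0, zero_mul])
  have hxi : x i ≠ 0 := fun h0 => hgi (by rw [h0, mul_zero])
  have h2 : v.At (g / g') (p.rep i / q.rep i) := by
    have := (hg i).div (hg' i) hi
    rwa [mul_div_mul_right _ _ hxi] at this
  apply eq_of_rep (a := p.rep i / q.rep i)
  intro j
  have h3 := h2.mul (hg' j)
  have h4 : g / g' * (g' * x j) = g * x j := by
    field_simp
  rw [h4] at h3
  exact (hg j).unique h3

/-- values of a twisted morphism -/
lemma IsValue.act (h : IsValue v x p) (ζ : kˣ) (g : J → ZMod m) :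
    IsValue v (fun j => algebraMap k F ((ζ ^ (g j).val : kˣ) : k) * x j) (act ζ g p) := by
  obtain ⟨g', hg'⟩ := isValue_iff.1 h
  obtain ⟨a, ha, h1⟩ := act_rep ζ g p
  refine ⟨algebraMap k F a * g', fun j => ?_⟩
  have h2 := (Place.at_const (v := v) (a * ((ζ ^ (g j).val : kˣ) : k))).mul (hg' j)
  rw [h1]
  have h3 : algebraMap k F a * g' * (algebraMap k F ((ζ ^ (g j).val : kˣ) : k) * x j) =
      algebraMap k F (a * ((ζ ^ (g j).val : kˣ) : k)) * (g' * x j) := by
    rw [map_mul]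
    ring
  rw [h3, ← mul_assoc a]
  exact h2

/-- values at conjugate points -/
lemma IsValue.map (h : IsValue v x p) (τ : F ≃ₐ[k] F) {ζ : kˣ} {g : J → ZMod m}
    (hτ : ∀ j, τ.symm (x j) = algebraMap k F ((ζ ^ (g j).val : kˣ) : k) * x j) :
    IsValue (v.map τ) x (DCI57.act ζ g p) := by
  obtain ⟨g', hg'⟩ := isValue_iff.1 (h.act ζ g)
  refine ⟨τ g', fun j => ?_⟩
  have h1 : (v.map τ).At (τ g' * x j) ((DCI57.act ζ g p).rep j) := by
    rw [Place.at_map, map_mul, AlgEquiv.symm_apply_apply, hτ]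
    exact hg' j
  exact h1

lemma IsValue.mem_Diag [Fintype J] {r : ℕ} {c : Fin r → J → k} (h : IsValue v x p)
    (hx : ∀ i, ∑ j, algebraMap k F (c i j) * x j ^ m = 0) : p ∈ Diag m c := by
  obtain ⟨g, hg⟩ := isValue_iff.1 h
  intro i
  have h1 : v.At (∑ j, algebraMap k F (c i j) * (g * x j) ^ m) (∑ j, c i j * p.rep j ^ m) :=
    Place.At.sum fun j _ => (Place.at_const _).mul ((hg j).pow m)
  have h2 : ∑ j, algebraMap k F (c i j) * (g * x j) ^ m = 0 := by
    have : ∀ j, algebraMap k F (c i j) * (g * x j) ^ m =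
        g ^ m * (algebraMap k F (c i j) * x j ^ m) := by
      intro j
      ring
    rw [Finset.sum_congr rfl fun j _ => this j, ← Finset.mul_sum, hx i, mul_zero]
  rw [h2] at h1
  exact (h1.unique (by simpa using Place.at_const (v := v) (0 : k)))

/-- a coordinate which vanishes at `v` -/
lemma IsValue.rep_zero [NeZero m] (h : IsValue v x p) {i l : J} (hl : ∃ d : k, d ≠ 0 ∧
    v.At (x l ^ m) d) (hi : v.At (x i ^ m) 0) : p.rep i = 0 := by
  obtain ⟨g, hg⟩ := isValue_iff.1 h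
  obtain ⟨d, hd, hl⟩ := hl
  have hxl : x l ≠ 0 := by
    intro h0
    rw [h0, zero_pow (NeZero.ne m)] at hl
    exact hd (hl.unique (by simpa using Place.at_const (v := v) (0 : k)))
  have h1 : v.At ((x i / x l) ^ m) 0 := by
    rw [div_pow]
    have := hi.div hl hd
    rwa [zero_div] at this
  have h2 : v.At (x i / x l) 0 := by
    rw [Place.at_zero_iff] at h1 ⊢
    exact v.vanishes_of_pow h1
  have h3 := h2.mul (hg l)
  have h4 : x i / x l * (g * x l) = g * x i := by
    field_simp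
  rw [h4, zero_mul] at h3
  exact (hg i).unique h3

/-- the value is determined by the values of the `m`-th powers, up to a twist -/
lemma IsValue.eq_act [NeZero m] [IsAlgClosed k] {ζ : kˣ} (hζ : IsPrimitiveRoot (ζ : k) m)
    (h : IsValue v x q) {d : k} (hd : d ≠ 0) (hx : ∀ j, v.At (x j ^ m) (d * p.rep j ^ m)) :
    ∃ g : J → ZMod m, q = DCI57.act ζ g p := by
  obtain ⟨γ, hγ⟩ := IsAlgClosed.exists_pow_nat_eq d (NeZero.pos m)
  have hγ0 : γ ≠ 0 := by
    rintro rfl
    rw [zero_pow (NeZero.ne m)] at hγ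
    exact hd hγ.symm
  have h1 : ∀ j, ∃ i : ℕ, i < m ∧ v.At (x j) ((ζ : k) ^ i * (γ * p.rep j)) := by
    intro j
    apply Place.exists_root_at hζ (NeZero.pos m)
    rw [mul_pow, hγ]
    exact hx j
  choose i hi hi' using h1
  refine ⟨fun j => (i j : ZMod m), ?_⟩
  apply IsValue.unique h
  obtain ⟨a, ha, h2⟩ := act_rep ζ (fun j => (i j : ZMod m)) p
  refine ⟨algebraMap k F (a * γ⁻¹), fun j => ?_⟩
  have h3 := (Place.at_const (v := v) (a * γ⁻¹)).mul (hi' j)
  have h4 : a * γ⁻¹ * ((ζ : k) ^ i j * (γ * p.rep j)) =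
      (DCI57.act ζ (fun j => (i j : ZMod m)) p).rep j := by
    rw [h2, ZMod.val_cast_of_lt (hi j)]
    push_cast
    field_simp
  rw [← h4]
  exact h3

end

end Pool.Agent.DCI57
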