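import Pool.Agent.ZCyc.Defs

/-!
# Zero-cycles on diagonal complete intersections: definitions

`k` is an algebraically closed field of characteristic `0`. The points of a smooth projective curve
with function field `F` are the places of `F/k` (`Pool.Agent.ZCyc.Place`). A morphism from this
curve to the projective space with coordinates indexed by `J` is given by homogeneous coordinates
`x j` in `F`; its value at a point `v` is described by `IsValue`.
-/

open scoped LinearAlgebra.Projectivization

namespace Pool.Agent.DCI57

open Pool.Agent.ZCyc

universe u w

variable {k : Type u} [Field k] {J : Type}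

/-- `p` is the value at the point `v` of the morphism to the projective space with homogeneous
coordinates `x j` (in the function field `F`): after multiplication of the coordinates by a common
factor `g` they are regular at `v`, with values the homogeneous coordinates of `p`. -/
def IsValue {F : Type*} [Field F] [Algebra k F] (v : Place k F) (x : J → F)
    (p : ℙ k (J → k)) : Prop :=
  ∃ g : F, ∀ j, v.Vanishes (g * x j - algebraMap k F (p.rep j))

/-- The zero-cycles (with coefficients in `R`, a field of characteristic zero) on the closed subset
`X` of the projective space which are rationally equivalent to zero: the span of the cycles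
`φ_* (π^* a - π^* b)`, for all finite Galois coverings `π : D → ℙ¹` of smooth projective curves,
given by extensions `F` of `k(X)`, all points `a` and `b` (`≠ ∞`) of `ℙ¹`, and all morphisms `φ`
from `D` to `X`. Here `π^* a` is the sum of the points `τ v`, for all `τ` in the Galois group,
where `v` is a point of `D` above `a`. -/
noncomputable def ratEquiv (R : Type w) [Field R] (X : Set (ℙ k (J → k))) :
    Submodule R (ℙ k (J → k) →₀ R) :=
  Submodule.span R {z | ∃ (F : Type u) (_ : Field F) (_ : Algebra k F) (_ : Algebra (RatFunc k) F)
    (_ : IsScalarTower k (RatFunc k) F) (_ : FiniteDimensional (RatFunc k) F)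
    (_ : IsGalois (RatFunc k) F) (x : J → F) (φ : Place k F → ℙ k (J → k))
    (_ : ∀ v, IsValue v x (φ v)) (_ : ∀ v, φ v ∈ X) (a b : k) (v w : Place k F)
    (_ : v.Vanishes (algebraMap (RatFunc k) F (RatFunc.X - RatFunc.C a)))
    (_ : w.Vanishes (algebraMap (RatFunc k) F (RatFunc.X - RatFunc.C b))),
    z = ∑ τ : F ≃ₐ[RatFunc k] F, (Finsupp.single (φ (v.map (τ.restrictScalars k))) 1 -
      Finsupp.single (φ (w.map (τ.restrictScalars k))) 1)}

/-- The intersection of the diagonal hypersurfaces `∑ j, c i j * x j ^ m = 0`. -/
def Diag [Fintype J] (m : ℕ) {r : ℕ} (c : Fin r → J → k) : Set (ℙ k (J → k)) :=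
  {p | ∀ i, ∑ j, c i j * p.rep j ^ m = 0}

/-- The automorphism `[x j] ↦ [ζ ^ (g j) * x j]` of the projective space. -/
noncomputable def act {m : ℕ} (ζ : kˣ) (g : J → ZMod m) (p : ℙ k (J → k)) : ℙ k (J → k) :=
  Projectivization.mk k (fun j => ((ζ ^ (g j).val : kˣ) : k) * p.rep j) (by
    intro h
    apply p.rep_nonzero
    funext j
    have h1 := congrFun h j
    exact (Units.mul_right_eq_zero _).1 h1)

end Pool.Agent.DCI57
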