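import Mathlib

/-!
# Zero-sum sequences over `ZMod m`, `m = 2, 3, 4, 5, 7`

A zero-sum sequence over `ZMod m` with `m = 2, 3, 4, 5, 7` splits into the maximal possible number of
zero-sum blocks. The proof removes one block at a time: a pair of opposite elements if there is one,
and otherwise, after multiplication by a unit, an explicit block.
-/

namespace Pool.Agent.DCI57

/-- The weight of a family of multiplicities. -/
private def spW {m : ℕ} [NeZero m] (n : ZMod m → ℕ) (c : ZMod m) : ℕ :=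
  ∑ t : ZMod m, n t * (c * t).val

private lemma sp_sum {m : ℕ} [NeZero m] {J : Type} (a : J → ZMod m) (S : Finset J)
    (g : ZMod m → ℕ) :
    ∑ j ∈ S, g (a j) = ∑ t : ZMod m, (S.filter fun j => a j = t).card * g t := by
  rw [← Finset.sum_fiberwise S a]
  refine Finset.sum_congr rfl fun t _ => ?_
  rw [Finset.sum_congr rfl (g := fun _ => g t) (fun j hj => by rw [(Finset.mem_filter.1 hj).2]),
    Finset.sum_const, smul_eq_mul]

private lemma pres3 (n1 n2 q q' : ℕ) (h12 : n1 = 0 ∨ n2 = 0) (hne : n1 + n2 ≠ 0) (hq1 : 1 ≤ q)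
    (hW : n1 + 2 * n2 = 3 * q') (h2 : n1 + 2 * n2 ≤ 2 * n1 + n2) (hq : 3 * q ≤ n1 + 2 * n2) :
    ∃ t1 t2, t1 ≤ n1 ∧ t2 ≤ n2 ∧ t1 + 2 * t2 = 3 ∧ 3 * (q - 1) + (2 * t1 + t2) ≤ 2 * n1 + n2 := by
  refine ⟨3, 0, ?_, ?_, ?_, ?_⟩ <;> omega

private lemma pres4 (n1 n2 n3 q q' : ℕ) (h13 : n1 = 0 ∨ n3 = 0) (hn2 : n2 ≤ 1)
    (hne : n1 + n2 + n3 ≠ 0) (hq1 : 1 ≤ q)
    (hW : n1 + 2 * n2 + 3 * n3 = 4 * q') (h3 : n1 + 2 * n2 + 3 * n3 ≤ 3 * n1 + 2 * n2 + n3)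
    (hq : 4 * q ≤ n1 + 2 * n2 + 3 * n3) :
    ∃ t1 t2 t3, t1 ≤ n1 ∧ t2 ≤ n2 ∧ t3 ≤ n3 ∧ t1 + 2 * t2 + 3 * t3 = 4 ∧
      4 * (q - 1) + (3 * t1 + 2 * t2 + t3) ≤ 3 * n1 + 2 * n2 + n3 := by
  by_cases h : n2 = 0
  · refine ⟨4, 0, 0, ?_, ?_, ?_, ?_, ?_⟩ <;> omega
  · refine ⟨2, 1, 0, ?_, ?_, ?_, ?_, ?_⟩ <;> omega

private lemma pres5 (n1 n2 n3 n4 q q' : ℕ) (h14 : n1 = 0 ∨ n4 = 0) (h23 : n2 = 0 ∨ n3 = 0)
    (hne : n1 + n2 + n3 + n4 ≠ 0) (hq1 : 1 ≤ q)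
    (hW : n1 + 2 * n2 + 3 * n3 + 4 * n4 = 5 * q')
    (h2 : n1 + 2 * n2 + 3 * n3 + 4 * n4 ≤ 2 * n1 + 4 * n2 + n3 + 3 * n4)
    (h3 : n1 + 2 * n2 + 3 * n3 + 4 * n4 ≤ 3 * n1 + n2 + 4 * n3 + 2 * n4)
    (h4 : n1 + 2 * n2 + 3 * n3 + 4 * n4 ≤ 4 * n1 + 3 * n2 + 2 * n3 + n4)
    (hq : 5 * q ≤ n1 + 2 * n2 + 3 * n3 + 4 * n4) :
    ∃ t1 t2 t3 t4, t1 ≤ n1 ∧ t2 ≤ n2 ∧ t3 ≤ n3 ∧ t4 ≤ n4 ∧
      t1 + 2 * t2 + 3 * t3 + 4 * t4 = 5 ∧
      5 * (q - 1) + (2 * t1 + 4 * t2 + t3 + 3 * t4) ≤ 2 * n1 + 4 * n2 + n3 + 3 * n4 ∧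
      5 * (q - 1) + (3 * t1 + t2 + 4 * t3 + 2 * t4) ≤ 3 * n1 + n2 + 4 * n3 + 2 * n4 ∧
      5 * (q - 1) + (4 * t1 + 3 * t2 + 2 * t3 + t4) ≤ 4 * n1 + 3 * n2 + 2 * n3 + n4 := by
  by_cases h : n3 = 0
  · by_cases h' : 2 ≤ n2
    · refine ⟨1, 2, 0, 0, ?_, ?_, ?_, ?_, ?_, ?_, ?_, ?_⟩ <;> omega
    · by_cases h'' : n2 = 1
      · refine ⟨3, 1, 0, 0, ?_, ?_, ?_, ?_, ?_, ?_, ?_, ?_⟩ <;> omega
      · refine ⟨5, 0, 0, 0, ?_, ?_, ?_, ?_, ?_, ?_, ?_, ?_⟩ <;> omega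
  · refine ⟨2, 0, 1, 0, ?_, ?_, ?_, ?_, ?_, ?_, ?_, ?_⟩ <;> omega

private lemma pres7 (n1 n2 n3 n4 n5 n6 q q' : ℕ) (h16 : n1 = 0 ∨ n6 = 0) (h25 : n2 = 0 ∨ n5 = 0)
    (h34 : n3 = 0 ∨ n4 = 0)
    (hne : n1 + n2 + n3 + n4 + n5 + n6 ≠ 0) (hq1 : 1 ≤ q)
    (hW : n1 + 2 * n2 + 3 * n3 + 4 * n4 + 5 * n5 + 6 * n6 = 7 * q')
    (h2 : n1 + 2 * n2 + 3 * n3 + 4 * n4 + 5 * n5 + 6 * n6 ≤
      2 * n1 + 4 * n2 + 6 * n3 + n4 + 3 * n5 + 5 * n6)
    (h3 : n1 + 2 * n2 + 3 * n3 + 4 * n4 + 5 * n5 + 6 * n6 ≤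
      3 * n1 + 6 * n2 + 2 * n3 + 5 * n4 + n5 + 4 * n6)
    (h4 : n1 + 2 * n2 + 3 * n3 + 4 * n4 + 5 * n5 + 6 * n6 ≤
      4 * n1 + n2 + 5 * n3 + 2 * n4 + 6 * n5 + 3 * n6)
    (h5 : n1 + 2 * n2 + 3 * n3 + 4 * n4 + 5 * n5 + 6 * n6 ≤
      5 * n1 + 3 * n2 + n3 + 6 * n4 + 4 * n5 + 2 * n6)
    (h6 : n1 + 2 * n2 + 3 * n3 + 4 * n4 + 5 * n5 + 6 * n6 ≤
      6 * n1 + 5 * n2 + 4 * n3 + 3 * n4 + 2 * n5 + n6)
    (hq : 7 * q ≤ n1 + 2 * n2 + 3 * n3 + 4 * n4 + 5 * n5 + 6 * n6) :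
    ∃ t1 t2 t3 t4 t5 t6, t1 ≤ n1 ∧ t2 ≤ n2 ∧ t3 ≤ n3 ∧ t4 ≤ n4 ∧ t5 ≤ n5 ∧ t6 ≤ n6 ∧
      t1 + 2 * t2 + 3 * t3 + 4 * t4 + 5 * t5 + 6 * t6 = 7 ∧
      7 * (q - 1) + (2 * t1 + 4 * t2 + 6 * t3 + t4 + 3 * t5 + 5 * t6) ≤
        2 * n1 + 4 * n2 + 6 * n3 + n4 + 3 * n5 + 5 * n6 ∧
      7 * (q - 1) + (3 * t1 + 6 * t2 + 2 * t3 + 5 * t4 + t5 + 4 * t6) ≤
        3 * n1 + 6 * n2 + 2 * n3 + 5 * n4 + n5 + 4 * n6 ∧
      7 * (q - 1) + (4 * t1 + t2 + 5 * t3 + 2 * t4 + 6 * t5 + 3 * t6) ≤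
        4 * n1 + n2 + 5 * n3 + 2 * n4 + 6 * n5 + 3 * n6 ∧
      7 * (q - 1) + (5 * t1 + 3 * t2 + t3 + 6 * t4 + 4 * t5 + 2 * t6) ≤
        5 * n1 + 3 * n2 + n3 + 6 * n4 + 4 * n5 + 2 * n6 ∧
      7 * (q - 1) + (6 * t1 + 5 * t2 + 4 * t3 + 3 * t4 + 2 * t5 + t6) ≤
        6 * n1 + 5 * n2 + 4 * n3 + 3 * n4 + 2 * n5 + n6 := by
  have h60 : n6 = 0 := by omega
  subst h60
  rcases h25 with h | h <;> rcases h34 with h' | h' <;> subst h <;> subst h'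
  · -- n2 = n3 = 0
    by_cases hn5 : n5 = 0
    · by_cases hn4 : n4 = 0
      · refine ⟨7, 0, 0, 0, 0, 0, ?_, ?_, ?_, ?_, ?_, ?_, ?_, ?_, ?_, ?_, ?_, ?_⟩ <;> omega
      · refine ⟨3, 0, 0, 1, 0, 0, ?_, ?_, ?_, ?_, ?_, ?_, ?_, ?_, ?_, ?_, ?_, ?_⟩ <;> omega
    · refine ⟨2, 0, 0, 0, 1, 0, ?_, ?_, ?_, ?_, ?_, ?_, ?_, ?_, ?_, ?_, ?_, ?_⟩ <;> omega
  · -- n2 = n4 = 0
    by_cases hn5 : n5 = 0
    · by_cases hn3 : n3 = 0
      · refine ⟨7, 0, 0, 0, 0, 0, ?_, ?_, ?_, ?_, ?_, ?_, ?_, ?_, ?_, ?_, ?_, ?_⟩ <;> omega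
      · by_cases hn3' : 2 ≤ n3
        · refine ⟨1, 0, 2, 0, 0, 0, ?_, ?_, ?_, ?_, ?_, ?_, ?_, ?_, ?_, ?_, ?_, ?_⟩ <;> omega
        · refine ⟨4, 0, 1, 0, 0, 0, ?_, ?_, ?_, ?_, ?_, ?_, ?_, ?_, ?_, ?_, ?_, ?_⟩ <;> omega
    · refine ⟨2, 0, 0, 0, 1, 0, ?_, ?_, ?_, ?_, ?_, ?_, ?_, ?_, ?_, ?_, ?_, ?_⟩ <;> omega
  · -- n5 = n3 = 0
    by_cases hn4 : n4 = 0
    · by_cases hn2 : 3 ≤ n2
      · refine ⟨1, 3, 0, 0, 0, 0, ?_, ?_, ?_, ?_, ?_, ?_, ?_, ?_, ?_, ?_, ?_, ?_⟩ <;> omega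
      · by_cases hn2' : n2 = 2
        · refine ⟨3, 2, 0, 0, 0, 0, ?_, ?_, ?_, ?_, ?_, ?_, ?_, ?_, ?_, ?_, ?_, ?_⟩ <;> omega
        · by_cases hn2'' : n2 = 1
          · refine ⟨5, 1, 0, 0, 0, 0, ?_, ?_, ?_, ?_, ?_, ?_, ?_, ?_, ?_, ?_, ?_, ?_⟩ <;> omega
          · refine ⟨7, 0, 0, 0, 0, 0, ?_, ?_, ?_, ?_, ?_, ?_, ?_, ?_, ?_, ?_, ?_, ?_⟩ <;> omega
    · by_cases hn2 : n2 = 0
      · refine ⟨3, 0, 0, 1, 0, 0, ?_, ?_, ?_, ?_, ?_, ?_, ?_, ?_, ?_, ?_, ?_, ?_⟩ <;> omega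
      · refine ⟨1, 1, 0, 1, 0, 0, ?_, ?_, ?_, ?_, ?_, ?_, ?_, ?_, ?_, ?_, ?_, ?_⟩ <;> omega
  · -- n5 = n4 = 0
    by_cases hn3 : n3 = 0
    · by_cases hn2 : 3 ≤ n2
      · refine ⟨1, 3, 0, 0, 0, 0, ?_, ?_, ?_, ?_, ?_, ?_, ?_, ?_, ?_, ?_, ?_, ?_⟩ <;> omega
      · by_cases hn2' : n2 = 2
        · refine ⟨3, 2, 0, 0, 0, 0, ?_, ?_, ?_, ?_, ?_, ?_, ?_, ?_, ?_, ?_, ?_, ?_⟩ <;> omega
        · by_cases hn2'' : n2 = 1
          · refine ⟨5, 1, 0, 0, 0, 0, ?_, ?_, ?_, ?_, ?_, ?_, ?_, ?_, ?_, ?_, ?_, ?_⟩ <;> omega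
          · refine ⟨7, 0, 0, 0, 0, 0, ?_, ?_, ?_, ?_, ?_, ?_, ?_, ?_, ?_, ?_, ?_, ?_⟩ <;> omega
    · by_cases hn2 : 2 ≤ n2
      · refine ⟨0, 2, 1, 0, 0, 0, ?_, ?_, ?_, ?_, ?_, ?_, ?_, ?_, ?_, ?_, ?_, ?_⟩ <;> omega
      · by_cases hn3' : 2 ≤ n3
        · refine ⟨1, 0, 2, 0, 0, 0, ?_, ?_, ?_, ?_, ?_, ?_, ?_, ?_, ?_, ?_, ?_, ?_⟩ <;> omega
        · by_cases hn2' : n2 = 1
          · refine ⟨2, 1, 1, 0, 0, 0, ?_, ?_, ?_, ?_, ?_, ?_, ?_, ?_, ?_, ?_, ?_, ?_⟩ <;> omega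
          · refine ⟨4, 0, 1, 0, 0, 0, ?_, ?_, ?_, ?_, ?_, ?_, ?_, ?_, ?_, ?_, ?_, ?_⟩ <;> omega

private lemma spW2 (n : ZMod 2 → ℕ) (h0 : n 0 = 0) : spW n 1 = n 1 := by
  have key : spW n 1 = n 0 * ((1 : ZMod 2) * 0).val + n 1 * ((1 : ZMod 2) * 1).val :=
    @Fin.sum_univ_two ℕ _ (fun t : ZMod 2 => n t * ((1 : ZMod 2) * t).val)
  rw [key, h0]
  change 0 * 0 + n 1 * 1 = _
  ring

private lemma spW3 (n : ZMod 3 → ℕ) (h0 : n 0 = 0) :
    spW n 1 = n 1 + 2 * n 2 ∧ spW n 2 = 2 * n 1 + n 2 := by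
  have key : ∀ c : ZMod 3, spW n c = n 1 * (c * 1).val + n 2 * (c * 2).val := by
    intro c
    have h : spW n c = n 0 * (c * 0).val + n 1 * (c * 1).val + n 2 * (c * 2).val :=
      @Fin.sum_univ_three ℕ _ (fun t : ZMod 3 => n t * (c * t).val)
    rw [h, h0]
    ring
  refine ⟨?_, ?_⟩
  · rw [key]
    change n 1 * 1 + n 2 * 2 = _
    ring
  · rw [key]
    change n 1 * 2 + n 2 * 1 = _
    ring

private lemma spW4 (n : ZMod 4 → ℕ) (h0 : n 0 = 0) :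
    spW n 1 = n 1 + 2 * n 2 + 3 * n 3 ∧ spW n 3 = 3 * n 1 + 2 * n 2 + n 3 := by
  have key : ∀ c : ZMod 4, spW n c = n 1 * (c * 1).val + n 2 * (c * 2).val +
      n 3 * (c * 3).val := by
    intro c
    have h : spW n c = n 0 * (c * 0).val + n 1 * (c * 1).val + n 2 * (c * 2).val +
        n 3 * (c * 3).val :=
      @Fin.sum_univ_four ℕ _ (fun t : ZMod 4 => n t * (c * t).val)
    rw [h, h0]
    ring
  refine ⟨?_, ?_⟩
  · rw [key]
    change n 1 * 1 + n 2 * 2 + n 3 * 3 = _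
    ring
  · rw [key]
    change n 1 * 3 + n 2 * 2 + n 3 * 1 = _
    ring

private lemma spW5 (n : ZMod 5 → ℕ) (h0 : n 0 = 0) :
    spW n 1 = n 1 + 2 * n 2 + 3 * n 3 + 4 * n 4 ∧ spW n 2 = 2 * n 1 + 4 * n 2 + n 3 + 3 * n 4 ∧
    spW n 3 = 3 * n 1 + n 2 + 4 * n 3 + 2 * n 4 ∧ spW n 4 = 4 * n 1 + 3 * n 2 + 2 * n 3 + n 4 := by
  have key : ∀ c : ZMod 5, spW n c = n 1 * (c * 1).val + n 2 * (c * 2).val +
      n 3 * (c * 3).val + n 4 * (c * 4).val := by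
    intro c
    have h : spW n c = n 0 * (c * 0).val + n 1 * (c * 1).val + n 2 * (c * 2).val +
        n 3 * (c * 3).val + n 4 * (c * 4).val :=
      @Fin.sum_univ_five ℕ _ (fun t : ZMod 5 => n t * (c * t).val)
    rw [h, h0]
    ring
  refine ⟨?_, ?_, ?_, ?_⟩
  · rw [key]
    change n 1 * 1 + n 2 * 2 + n 3 * 3 + n 4 * 4 = _
    ring
  · rw [key]
    change n 1 * 2 + n 2 * 4 + n 3 * 1 + n 4 * 3 = _
    ring
  · rw [key]
    change n 1 * 3 + n 2 * 1 + n 3 * 4 + n 4 * 2 = _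
    ring
  · rw [key]
    change n 1 * 4 + n 2 * 3 + n 3 * 2 + n 4 * 1 = _
    ring

private lemma spW7 (n : ZMod 7 → ℕ) (h0 : n 0 = 0) :
    spW n 1 = n 1 + 2 * n 2 + 3 * n 3 + 4 * n 4 + 5 * n 5 + 6 * n 6 ∧
    spW n 2 = 2 * n 1 + 4 * n 2 + 6 * n 3 + n 4 + 3 * n 5 + 5 * n 6 ∧
    spW n 3 = 3 * n 1 + 6 * n 2 + 2 * n 3 + 5 * n 4 + n 5 + 4 * n 6 ∧
    spW n 4 = 4 * n 1 + n 2 + 5 * n 3 + 2 * n 4 + 6 * n 5 + 3 * n 6 ∧
    spW n 5 = 5 * n 1 + 3 * n 2 + n 3 + 6 * n 4 + 4 * n 5 + 2 * n 6 ∧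
    spW n 6 = 6 * n 1 + 5 * n 2 + 4 * n 3 + 3 * n 4 + 2 * n 5 + n 6 := by
  have key : ∀ c : ZMod 7, spW n c = n 1 * (c * 1).val + n 2 * (c * 2).val +
      n 3 * (c * 3).val + n 4 * (c * 4).val + n 5 * (c * 5).val + n 6 * (c * 6).val := by
    intro c
    have h : spW n c = n 0 * (c * 0).val + n 1 * (c * 1).val + n 2 * (c * 2).val +
        n 3 * (c * 3).val + n 4 * (c * 4).val + n 5 * (c * 5).val + n 6 * (c * 6).val :=
      @Fin.sum_univ_seven ℕ _ (fun t : ZMod 7 => n t * (c * t).val)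
    rw [h, h0]
    ring
  refine ⟨?_, ?_, ?_, ?_, ?_, ?_⟩
  · rw [key]
    change n 1 * 1 + n 2 * 2 + n 3 * 3 + n 4 * 4 + n 5 * 5 + n 6 * 6 = _
    ring
  · rw [key]
    change n 1 * 2 + n 2 * 4 + n 3 * 6 + n 4 * 1 + n 5 * 3 + n 6 * 5 = _
    ring
  · rw [key]
    change n 1 * 3 + n 2 * 6 + n 3 * 2 + n 4 * 5 + n 5 * 1 + n 6 * 4 = _
    ring
  · rw [key]
    change n 1 * 4 + n 2 * 1 + n 3 * 5 + n 4 * 2 + n 5 * 6 + n 6 * 3 = _
    ring
  · rw [key]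
    change n 1 * 5 + n 2 * 3 + n 3 * 1 + n 4 * 6 + n 5 * 4 + n 6 * 2 = _
    ring
  · rw [key]
    change n 1 * 6 + n 2 * 5 + n 3 * 4 + n 4 * 3 + n 5 * 2 + n 6 * 1 = _
    ring

private lemma sp_core {m : ℕ} [NeZero m] (hm : m = 2 ∨ m = 3 ∨ m = 4 ∨ m = 5 ∨ m = 7)
    (n : ZMod m → ℕ) (h0 : n 0 = 0) (hp : ∀ t, t ≠ -t → n t = 0 ∨ n (-t) = 0)
    (hs : ∀ t, t ≠ 0 → t = -t → n t ≤ 1) (hne : ∃ t, n t ≠ 0) (q q' : ℕ) (hq1 : 1 ≤ q)
    (hW : spW n 1 = m * q') (hmin : ∀ c, IsUnit c → spW n 1 ≤ spW n c)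
    (hq : m * q ≤ spW n 1) :
    ∃ τ : ZMod m → ℕ, (∀ t, τ t ≤ n t) ∧ spW τ 1 = m ∧
      ∀ c, IsUnit c → m * (q - 1) + spW τ c ≤ spW n c := by
  rcases hm with rfl | rfl | rfl | rfl | rfl
  · -- m = 2
    exfalso
    have h1 := hs 1 (by decide) (by decide)
    rw [spW2 n h0] at hW
    obtain ⟨t, ht⟩ := hne
    have ht' : ∀ t : ZMod 2, t = 0 ∨ t = 1 := by decide
    rcases ht' t with rfl | rfl
    · exact ht h0
    · omega
  · -- m = 3
    have hall : ∀ t : ZMod 3, t = 0 ∨ t = 1 ∨ t = 2 := by decide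
    have h12 : n 1 = 0 ∨ n 2 = 0 := hp 1 (by decide)
    obtain ⟨e1, e2⟩ := spW3 n h0
    have hne' : n 1 + n 2 ≠ 0 := by
      obtain ⟨t, ht⟩ := hne
      rcases hall t with rfl | rfl | rfl <;> omega
    have g2 := hmin 2 (by decide)
    rw [e1] at hW hq g2
    rw [e2] at g2
    obtain ⟨t1, t2, l1, l2, s1, s2⟩ := pres3 (n 1) (n 2) q q' h12 hne' hq1 hW g2 hq
    let τ : ZMod 3 → ℕ := ![0, t1, t2]
    obtain ⟨f1, f2⟩ := spW3 τ rfl
    have τ1 : τ 1 = t1 := rfl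
    have τ2 : τ 2 = t2 := rfl
    rw [τ1, τ2] at f1 f2
    refine ⟨τ, fun t => ?_, by rw [f1, s1], fun c hc => ?_⟩
    · rcases hall t with rfl | rfl | rfl
      · exact Nat.zero_le _
      · exact l1
      · exact l2
    · rcases hall c with rfl | rfl | rfl
      · exact absurd hc (by decide)
      · rw [f1, e1]
        omega
      · rw [f2, e2]
        exact s2
  · -- m = 4
    have hall : ∀ t : ZMod 4, t = 0 ∨ t = 1 ∨ t = 2 ∨ t = 3 := by decide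
    have h13 : n 1 = 0 ∨ n 3 = 0 := hp 1 (by decide)
    have hn2 : n 2 ≤ 1 := hs 2 (by decide) (by decide)
    obtain ⟨e1, e3⟩ := spW4 n h0
    have hne' : n 1 + n 2 + n 3 ≠ 0 := by
      obtain ⟨t, ht⟩ := hne
      rcases hall t with rfl | rfl | rfl | rfl <;> omega
    have g3 := hmin 3 (by decide)
    rw [e1] at hW hq g3
    rw [e3] at g3
    obtain ⟨t1, t2, t3, l1, l2, l3, s1, s3⟩ := pres4 (n 1) (n 2) (n 3) q q' h13 hn2 hne' hq1 hW g3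
      hq
    let τ : ZMod 4 → ℕ := ![0, t1, t2, t3]
    obtain ⟨f1, f3⟩ := spW4 τ rfl
    have τ1 : τ 1 = t1 := rfl
    have τ2 : τ 2 = t2 := rfl
    have τ3 : τ 3 = t3 := rfl
    rw [τ1, τ2, τ3] at f1 f3
    refine ⟨τ, fun t => ?_, by rw [f1, s1], fun c hc => ?_⟩
    · rcases hall t with rfl | rfl | rfl | rfl
      · exact Nat.zero_le _
      · exact l1
      · exact l2
      · exact l3
    · rcases hall c with rfl | rfl | rfl | rfl
      · exact absurd hc (by decide)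
      · rw [f1, e1]
        omega
      · exact absurd hc (by decide)
      · rw [f3, e3]
        exact s3
  · -- m = 5
    have hall : ∀ t : ZMod 5, t = 0 ∨ t = 1 ∨ t = 2 ∨ t = 3 ∨ t = 4 := by decide
    have h14 : n 1 = 0 ∨ n 4 = 0 := hp 1 (by decide)
    have h23 : n 2 = 0 ∨ n 3 = 0 := hp 2 (by decide)
    obtain ⟨e1, e2, e3, e4⟩ := spW5 n h0
    have hne' : n 1 + n 2 + n 3 + n 4 ≠ 0 := by
      obtain ⟨t, ht⟩ := hne
      rcases hall t with rfl | rfl | rfl | rfl | rfl <;> omega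
    have g2 := hmin 2 (by decide)
    have g3 := hmin 3 (by decide)
    have g4 := hmin 4 (by decide)
    rw [e1] at hW hq g2 g3 g4
    rw [e2] at g2
    rw [e3] at g3
    rw [e4] at g4
    obtain ⟨t1, t2, t3, t4, l1, l2, l3, l4, s1, s2, s3, s4⟩ := pres5 (n 1) (n 2) (n 3) (n 4) q q'
      h14 h23 hne' hq1 hW g2 g3 g4 hq
    let τ : ZMod 5 → ℕ := ![0, t1, t2, t3, t4]
    obtain ⟨f1, f2, f3, f4⟩ := spW5 τ rfl
    have τ1 : τ 1 = t1 := rfl
    have τ2 : τ 2 = t2 := rfl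
    have τ3 : τ 3 = t3 := rfl
    have τ4 : τ 4 = t4 := rfl
    rw [τ1, τ2, τ3, τ4] at f1 f2 f3 f4
    refine ⟨τ, fun t => ?_, by rw [f1, s1], fun c hc => ?_⟩
    · rcases hall t with rfl | rfl | rfl | rfl | rfl
      · exact Nat.zero_le _
      · exact l1
      · exact l2
      · exact l3
      · exact l4
    · rcases hall c with rfl | rfl | rfl | rfl | rfl
      · exact absurd hc (by decide)
      · rw [f1, e1]
        omega
      · rw [f2, e2]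
        exact s2
      · rw [f3, e3]
        exact s3
      · rw [f4, e4]
        exact s4
  · -- m = 7
    have hall : ∀ t : ZMod 7, t = 0 ∨ t = 1 ∨ t = 2 ∨ t = 3 ∨ t = 4 ∨ t = 5 ∨ t = 6 := by decide
    have h16 : n 1 = 0 ∨ n 6 = 0 := hp 1 (by decide)
    have h25 : n 2 = 0 ∨ n 5 = 0 := hp 2 (by decide)
    have h34 : n 3 = 0 ∨ n 4 = 0 := hp 3 (by decide)
    obtain ⟨e1, e2, e3, e4, e5, e6⟩ := spW7 n h0
    have hne' : n 1 + n 2 + n 3 + n 4 + n 5 + n 6 ≠ 0 := by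
      obtain ⟨t, ht⟩ := hne
      rcases hall t with rfl | rfl | rfl | rfl | rfl | rfl | rfl <;> omega
    have g2 := hmin 2 (by decide)
    have g3 := hmin 3 (by decide)
    have g4 := hmin 4 (by decide)
    have g5 := hmin 5 (by decide)
    have g6 := hmin 6 (by decide)
    rw [e1] at hW hq g2 g3 g4 g5 g6
    rw [e2] at g2
    rw [e3] at g3
    rw [e4] at g4
    rw [e5] at g5
    rw [e6] at g6
    obtain ⟨t1, t2, t3, t4, t5, t6, l1, l2, l3, l4, l5, l6, s1, s2, s3, s4, s5, s6⟩ :=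
      pres7 (n 1) (n 2) (n 3) (n 4) (n 5) (n 6) q q' h16 h25 h34 hne' hq1 hW g2 g3 g4 g5 g6 hq
    let τ : ZMod 7 → ℕ := ![0, t1, t2, t3, t4, t5, t6]
    obtain ⟨f1, f2, f3, f4, f5, f6⟩ := spW7 τ rfl
    have τ1 : τ 1 = t1 := rfl
    have τ2 : τ 2 = t2 := rfl
    have τ3 : τ 3 = t3 := rfl
    have τ4 : τ 4 = t4 := rfl
    have τ5 : τ 5 = t5 := rfl
    have τ6 : τ 6 = t6 := rfl
    rw [τ1, τ2, τ3, τ4, τ5, τ6] at f1 f2 f3 f4 f5 f6
    refine ⟨τ, fun t => ?_, by rw [f1, s1], fun c hc => ?_⟩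
    · rcases hall t with rfl | rfl | rfl | rfl | rfl | rfl | rfl
      · exact Nat.zero_le _
      · exact l1
      · exact l2
      · exact l3
      · exact l4
      · exact l5
      · exact l6
    · rcases hall c with rfl | rfl | rfl | rfl | rfl | rfl | rfl
      · exact absurd hc (by decide)
      · rw [f1, e1]
        omega
      · rw [f2, e2]
        exact s2
      · rw [f3, e3]
        exact s3
      · rw [f4, e4]
        exact s4
      · rw [f5, e5]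
        exact s5
      · rw [f6, e6]
        exact s6

private lemma sp_val_neg {m : ℕ} [NeZero m] {x y : ZMod m} (h : x + y = 0) (hx : x ≠ 0) :
    x.val + y.val = m := by
  have h1 : y = -x := (neg_eq_of_add_eq_zero_right h).symm
  rw [h1, ZMod.neg_val, if_neg hx]
  have := ZMod.val_lt x
  omega

private lemma sp_dvd {m : ℕ} [NeZero m] {J : Type} (a : J → ZMod m) (S : Finset J) :
    (m ∣ ∑ j ∈ S, (a j).val) ↔ ∑ j ∈ S, a j = 0 := by
  rw [← ZMod.natCast_eq_zero_iff]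
  push_cast
  simp only [ZMod.natCast_zmod_val]

/-- Removal of one block. -/
private lemma sp_step {m : ℕ} [NeZero m] (hm : m = 2 ∨ m = 3 ∨ m = 4 ∨ m = 5 ∨ m = 7) {J : Type}
    [DecidableEq J] (a : J → ZMod m) (S : Finset J) (ha : ∀ j ∈ S, a j ≠ 0)
    (hsum : ∑ j ∈ S, a j = 0) (hS : S.Nonempty) (q : ℕ) (hq1 : 1 ≤ q)
    (hq : ∀ u : (ZMod m)ˣ, m * q ≤ ∑ j ∈ S, ((u : ZMod m) * a j).val) :
    ∃ T ⊆ S, T.Nonempty ∧ ∑ j ∈ T, a j = 0 ∧
      ∀ u : (ZMod m)ˣ, m * (q - 1) ≤ ∑ j ∈ S \ T, ((u : ZMod m) * a j).val := by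
  have hm0 : 0 < m := NeZero.pos m
  by_cases hpair : ∃ i ∈ S, ∃ j ∈ S, i ≠ j ∧ a i + a j = 0
  · obtain ⟨i, hi, j, hj, hij, h0⟩ := hpair
    have hT : ({i, j} : Finset J) ⊆ S := by
      intro x hx
      rcases Finset.mem_insert.1 hx with rfl | hx
      · exact hi
      · rw [Finset.mem_singleton.1 hx]
        exact hj
    refine ⟨{i, j}, hT, ⟨i, Finset.mem_insert_self _ _⟩, ?_, fun u => ?_⟩
    · rw [Finset.sum_pair hij, h0]
    · have h1 := Finset.sum_sdiff (f := fun j => ((u : ZMod m) * a j).val) hT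
      rw [Finset.sum_pair hij, sp_val_neg (by rw [← mul_add, h0, mul_zero])
        (fun h => ha i hi ((Units.mul_right_eq_zero u).1 h))] at h1
      have h2 := hq u
      rw [← h1] at h2
      have h3 : m * q = m * (q - 1) + m := by
        obtain ⟨r, rfl⟩ := Nat.exists_eq_add_of_le hq1
        rw [Nat.add_sub_cancel_left]
        ring
      omega
  · push Not at hpair
    obtain ⟨u₀, -, hu₀⟩ := Finset.exists_min_image (Finset.univ : Finset (ZMod m)ˣ)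
      (fun u => ∑ j ∈ S, ((u : ZMod m) * a j).val) ⟨1, Finset.mem_univ _⟩
    set a' : J → ZMod m := fun j => (u₀ : ZMod m) * a j with ha'
    set n : ZMod m → ℕ := fun t => (S.filter fun j => a' j = t).card with hn
    have hw : ∀ c : ZMod m, ∑ j ∈ S, (c * a' j).val = spW n c := fun c =>
      sp_sum a' S fun t => (c * t).val
    have hpair' : ∀ i ∈ S, ∀ j ∈ S, i ≠ j → a' i + a' j ≠ 0 := by
      intro i hi j hj hij h
      apply hpair i hi j hj hij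
      rw [ha'] at h
      simp only at h
      rw [← mul_add] at h
      exact (Units.mul_right_eq_zero u₀).1 h
    have h0 : n 0 = 0 := by
      rw [hn]
      simp only
      rw [Finset.card_eq_zero, Finset.filter_eq_empty_iff]
      intro j hj h
      exact ha j hj ((Units.mul_right_eq_zero u₀).1 h)
    have hp : ∀ t, t ≠ -t → n t = 0 ∨ n (-t) = 0 := by
      intro t ht
      by_contra hcon
      push Not at hcon
      obtain ⟨i, hi⟩ := Finset.card_pos.1 (Nat.pos_of_ne_zero hcon.1)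
      obtain ⟨j, hj⟩ := Finset.card_pos.1 (Nat.pos_of_ne_zero hcon.2)
      rw [Finset.mem_filter] at hi hj
      refine hpair' i hi.1 j hj.1 ?_ ?_
      · rintro rfl
        exact ht (hi.2.symm.trans hj.2)
      · rw [hi.2, hj.2, add_neg_cancel]
    have hs : ∀ t, t ≠ 0 → t = -t → n t ≤ 1 := by
      intro t _ ht
      by_contra hcon
      push Not at hcon
      obtain ⟨i, hi, j, hj, hij⟩ := Finset.one_lt_card.1 hcon
      rw [Finset.mem_filter] at hi hj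
      refine hpair' i hi.1 j hj.1 hij ?_
      rw [hi.2, hj.2]
      nth_rewrite 2 [ht]
      exact add_neg_cancel t
    have hne : ∃ t, n t ≠ 0 := by
      obtain ⟨j, hj⟩ := hS
      refine ⟨a' j, ?_⟩
      change (S.filter fun i => a' i = a' j).card ≠ 0
      have hmem : j ∈ S.filter fun i => a' i = a' j := Finset.mem_filter.2 ⟨hj, rfl⟩
      exact (Finset.card_pos.2 ⟨j, hmem⟩).ne'
    have hsum' : ∑ j ∈ S, a' j = 0 := by
      rw [ha']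
      simp only
      rw [← Finset.mul_sum, hsum, mul_zero]
    have hW0 : spW n 1 = ∑ j ∈ S, (a' j).val := by
      rw [← hw]
      simp only [one_mul]
    obtain ⟨q', hq'⟩ : m ∣ spW n 1 := by
      rw [hW0]
      exact (sp_dvd a' S).2 hsum'
    have hmin : ∀ c, IsUnit c → spW n 1 ≤ spW n c := by
      rintro _ ⟨c, rfl⟩
      have h1 := hu₀ (c * u₀) (Finset.mem_univ _)
      rw [hW0, ← hw]
      simp only [Units.val_mul, mul_assoc] at h1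
      exact h1
    have hqW : m * q ≤ spW n 1 := by
      rw [hW0]
      exact hq u₀
    obtain ⟨τ, hτ1, hτ2, hτ3⟩ := sp_core hm n h0 hp hs hne q q' hq1 hq' hmin hqW
    have hex : ∀ t, ∃ R ⊆ S.filter (fun j => a' j = t), R.card = τ t := fun t =>
      Finset.exists_subset_card_eq (hτ1 t)
    choose R hR1 hR2 using hex
    set T : Finset J := Finset.univ.biUnion R with hT
    have hTS : T ⊆ S := by
      intro j hj
      obtain ⟨t, -, ht⟩ := Finset.mem_biUnion.1 hj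
      exact (Finset.mem_filter.1 (hR1 t ht)).1
    have hTf : ∀ t, (T.filter fun j => a' j = t) = R t := by
      intro t
      ext j
      rw [Finset.mem_filter]
      constructor
      · rintro ⟨hj, h⟩
        obtain ⟨t', -, ht'⟩ := Finset.mem_biUnion.1 hj
        have h1 := (Finset.mem_filter.1 (hR1 t' ht')).2
        rw [h] at h1
        rwa [h1]
      · intro hj
        exact ⟨Finset.mem_biUnion.2 ⟨t, Finset.mem_univ _, hj⟩, (Finset.mem_filter.1 (hR1 t hj)).2⟩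
    have hTw : ∀ c : ZMod m, ∑ j ∈ T, (c * a' j).val = spW τ c := by
      intro c
      rw [sp_sum a' T fun t => (c * t).val]
      refine Finset.sum_congr rfl fun t _ => ?_
      rw [hTf, hR2]
    have hT1 : ∑ j ∈ T, (a' j).val = m := by
      have h1 := hTw 1
      simp only [one_mul] at h1
      rw [h1, hτ2]
    refine ⟨T, hTS, ?_, ?_, fun u => ?_⟩
    · rw [Finset.nonempty_iff_ne_empty]
      intro h
      rw [h, Finset.sum_empty] at hT1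
      omega
    · have h1 : ∑ j ∈ T, a' j = 0 := (sp_dvd a' T).1 (by rw [hT1])
      rw [ha'] at h1
      simp only at h1
      rw [← Finset.mul_sum] at h1
      exact (Units.mul_right_eq_zero u₀).1 h1
    · have h1 : ∀ j, ((u : ZMod m) * a j) = ((u * u₀⁻¹ : (ZMod m)ˣ) : ZMod m) * a' j := by
        intro j
        rw [ha']
        simp only
        rw [← mul_assoc, ← Units.val_mul, inv_mul_cancel_right]
      simp only [h1]
      have h2 := Finset.sum_sdiff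
        (f := fun j => (((u * u₀⁻¹ : (ZMod m)ˣ) : ZMod m) * a' j).val) hTS
      rw [hTw, hw] at h2
      have h3 := hτ3 _ (u * u₀⁻¹ : (ZMod m)ˣ).isUnit
      omega

/-- D5: a zero-sum sequence over `ZMod m` with `m = 2, 3, 4, 5, 7` splits into the maximal possible
number of zero-sum blocks -/
theorem exists_split {m : ℕ} (hm : m = 2 ∨ m = 3 ∨ m = 4 ∨ m = 5 ∨ m = 7) {J : Type}
    [DecidableEq J] (a : J → ZMod m) (S : Finset J) (ha : ∀ j ∈ S, a j ≠ 0)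
    (hsum : ∑ j ∈ S, a j = 0) (q : ℕ)
    (hq : ∀ u : (ZMod m)ˣ, m * q ≤ ∑ j ∈ S, ((u : ZMod m) * a j).val) :
    ∃ (e : ℕ) (b : J → ℕ), q ≤ e ∧ (∀ j ∈ S, b j < e) ∧ (∀ i < e, ∃ j ∈ S, b j = i) ∧
      ∀ i < e, ∑ j ∈ S with b j = i, a j = 0 := by
  have hm0 : 0 < m := by omega
  have : NeZero m := ⟨hm0.ne'⟩
  induction hc : S.card using Nat.strong_induction_on generalizing S q with
  | _ N ih =>
    rcases S.eq_empty_or_nonempty with rfl | hS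
    · refine ⟨0, fun _ => 0, ?_, by simp, by simp, by simp⟩
      have h1 := hq 1
      rw [Finset.sum_empty, Nat.le_zero, Nat.mul_eq_zero] at h1
      omega
    · rcases Nat.eq_zero_or_pos q with rfl | hq1
      · refine ⟨1, fun _ => 0, by omega, by simp, ?_, ?_⟩
        · intro i hi
          obtain ⟨j, hj⟩ := hS
          exact ⟨j, hj, (Nat.lt_one_iff.1 hi).symm⟩
        · intro i hi
          have h1 : i = 0 := by omega
          subst h1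
          rw [Finset.filter_true_of_mem fun _ _ => rfl]
          exact hsum
      · obtain ⟨T, hTS, hT, hT0, hTq⟩ := sp_step hm a S ha hsum hS q hq1 hq
        have hlt : (S \ T).card < N := by
          rw [← hc]
          exact Finset.card_lt_card (Finset.sdiff_ssubset hTS hT)
        have hsum' : ∑ j ∈ S \ T, a j = 0 := by
          have h1 := Finset.sum_sdiff (f := a) hTS
          rwa [hT0, add_zero, hsum] at h1
        obtain ⟨e, b, hqe, hb1, hb2, hb3⟩ := ih _ hlt (S \ T)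
          (fun j hj => ha j (Finset.mem_sdiff.1 hj).1) hsum' (q - 1) hTq rfl
        refine ⟨e + 1, fun j => if j ∈ T then e else b j, by omega, ?_, ?_, ?_⟩
        · intro j hj
          by_cases h : j ∈ T
          · simp only [h, if_true]
            omega
          · simp only [h, if_false]
            have := hb1 j (Finset.mem_sdiff.2 ⟨hj, h⟩)
            omega
        · intro i hi
          rcases Nat.lt_succ_iff_lt_or_eq.1 hi with h | h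
          · obtain ⟨j, hj, hji⟩ := hb2 i h
            rw [Finset.mem_sdiff] at hj
            exact ⟨j, hj.1, (if_neg hj.2).trans hji⟩
          · obtain ⟨j, hj⟩ := hT
            exact ⟨j, hTS hj, (if_pos hj).trans h.symm⟩
        · intro i hi
          rcases Nat.lt_succ_iff_lt_or_eq.1 hi with h | h
          · have h1 : (S.filter fun j => (if j ∈ T then e else b j) = i) =
                (S \ T).filter fun j => b j = i := by
              ext j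
              rw [Finset.mem_filter, Finset.mem_filter, Finset.mem_sdiff]
              by_cases hj : j ∈ T
              · simp only [hj, if_true, not_true, and_false, false_and, iff_false, not_and]
                intro _
                omega
              · simp [hj]
            rw [h1]
            exact hb3 i h
          · have h1 : (S.filter fun j => (if j ∈ T then e else b j) = i) = T := by
              ext j
              rw [Finset.mem_filter]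
              by_cases hj : j ∈ T
              · simp only [hj, if_true, iff_true]
                exact ⟨hTS hj, h.symm⟩
              · simp only [hj, if_false, iff_false, not_and]
                intro hjS
                have := hb1 j (Finset.mem_sdiff.2 ⟨hjS, hj⟩)
                omega
            rw [h1]
            exact hT0

end Pool.Agent.DCI57
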