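import Pool.Agent.DCI57.Vanish
import Pool.Agent.DCI57.Descent
import Pool.Agent.DCI57.Split

/-!
# Quotients without holomorphic forms of top degree
-/

open Polynomial
open scoped LinearAlgebra.Projectivization

namespace Pool.Agent.DCI57

open Pool.Agent.ZCyc

universe u w

variable {k : Type u} [Field k] {J : Type} [Fintype J] [DecidableEq J] {m : ℕ} [NeZero m]
  {R : Type w} [Field R] [CharZero R]

/-- the trivial character -/
theorem trivial_part [IsAlgClosed k] [CharZero k] {ζ : kˣ} (hζ : IsPrimitiveRoot (ζ : k) m)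
    {r : ℕ} (c : Fin r → J → k) {p q : ℙ k (J → k)} (hp : p ∈ Diag m c) (hq : q ∈ Diag m c)
    {ψ : AddChar (J → ZMod m) R} (hψ : ∀ t, ψ t = 1) :
    op ζ ψ (Finsupp.single p 1) - op ζ ψ (Finsupp.single q 1) ∈ ratEquiv R (Diag m c) := by
  have hζ1 : ζ ^ m = 1 := by
    apply Units.ext
    push_cast
    exact hζ.pow_eq_one
  obtain ⟨g, h, hgh⟩ := relation (R := R) hζ (c := c)
    (P := fun j => C (p.rep j ^ m) * X + C (q.rep j ^ m) * (1 - X)) (by
      intro i
      have h1 : ∀ j, C (c i j) * (C (p.rep j ^ m) * X + C (q.rep j ^ m) * (1 - X)) =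
          X * C (c i j * p.rep j ^ m) + (1 - X) * C (c i j * q.rep j ^ m) := by
        intro j
        simp only [map_mul]
        ring
      rw [Finset.sum_congr rfl fun j _ => h1 j, Finset.sum_add_distrib, ← Finset.mul_sum,
        ← Finset.mul_sum, ← map_sum, ← map_sum, hp i, hq i]
      simp) (a := 1) (b := 0) (p := p) (q := q) one_ne_zero one_ne_zero (by simp) (by simp) ψ
    (fun {F} _ _ _ _ x hx τ t ht => hψ t)
  have h1 := op_act hζ1 ψ g p
  have h2 := op_act hζ1 ψ h q
  rw [hψ, one_smul] at h1 h2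
  rwa [h1, h2] at hgh

omit [Fintype J] [DecidableEq J] [NeZero m] [CharZero R] in
lemma addChar_sum {ι : Type*} (ψ : AddChar (J → ZMod m) R) (s : Finset ι) (f : ι → J → ZMod m) :
    ψ (∑ i ∈ s, f i) = ∏ i ∈ s, ψ (f i) := by
  classical
  induction s using Finset.induction_on with
  | empty => simp
  | insert i s hi ih =>
    rw [Finset.sum_insert hi, Finset.prod_insert hi, AddChar.map_add_eq_mul, ih]

omit [CharZero R] in
/-- exponents of a character -/
lemma exists_exponents {ω : R} (hω : IsPrimitiveRoot ω m)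
    (ψ : AddChar (J → ZMod m) R) :
    ∃ a : J → ZMod m, ∀ t, ψ t = ω ^ (∑ j, a j * t j).val := by
  have h1 : ∀ j, ∃ i < m, ω ^ i = ψ (Pi.single j 1) := by
    intro j
    apply hω.eq_pow_of_pow_eq_one
    rw [← AddChar.map_nsmul_eq_pow]
    have : m • (Pi.single j 1 : J → ZMod m) = 0 := by
      funext i
      simp
    rw [this, AddChar.map_zero_eq_one]
  choose i hi h2 using h1
  refine ⟨fun j => (i j : ZMod m), fun t => ?_⟩
  have h3 : t = ∑ j, (t j).val • (Pi.single j 1 : J → ZMod m) := by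
    funext l
    rw [Finset.sum_apply, Finset.sum_eq_single l]
    · simp
    · intro b _ hb
      simp [Pi.single_eq_of_ne (Ne.symm hb)]
    · simp
  have h4 : ψ t = ∏ j, ψ (Pi.single j 1) ^ (t j).val := by
    conv_lhs => rw [h3]
    rw [addChar_sum]
    apply Finset.prod_congr rfl
    intro j _
    rw [AddChar.map_nsmul_eq_pow]
  have h5 : ∀ n : ℕ, ω ^ n = ω ^ ((n : ZMod m)).val := by
    intro n
    rw [ZMod.val_natCast]
    conv_lhs => rw [← Nat.mod_add_div n m, pow_add, pow_mul, hω.pow_eq_one, one_pow, mul_one]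
  rw [h4]
  have h6 : ∀ j, ψ (Pi.single j 1) ^ (t j).val = ω ^ (i j * (t j).val) := by
    intro j
    rw [← h2 j, ← pow_mul]
  rw [Finset.prod_congr rfl fun j _ => h6 j, Finset.prod_pow_eq_pow_sum, h5]
  congr 2
  push_cast
  simp only [ZMod.natCast_val, ZMod.cast_id', id_eq]

/-- the numerical condition -/
lemma exists_blocks (hm : m = 2 ∨ m = 3 ∨ m = 4 ∨ m = 5 ∨ m = 7) {r : ℕ}
    (H : AddSubgroup (J → ZMod m))
    (hH : ∀ b : J → ℕ, (∀ j, 1 ≤ b j) → ∑ j, b j = r * m →
      ∃ h ∈ H, ∑ j, (b j : ZMod m) * h j ≠ 0) {a : J → ZMod m}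
    (ha : ∀ h ∈ H, ∑ j, a j * h j = 0) (hsum : ∑ j, a j = 0) {S : Finset J}
    (hS : ∀ j, j ∈ S ↔ a j ≠ 0) (hne : S.Nonempty) :
    ∃ (e : ℕ) (b : J → Fin e), (∀ B, ∃ j ∈ S, b j = B) ∧
      (∀ B, ∑ j ∈ S with b j = B, a j = 0) ∧ S.card + r < Fintype.card J + e := by
  classical
  have hm0 : 0 < m := NeZero.pos m
  have hSsum : ∑ j ∈ S, a j = 0 := by
    rw [← hsum]
    apply Finset.sum_subset (Finset.subset_univ S)
    intro j _ hj
    by_contra h0
    exact hj ((hS j).2 h0)
  have hcardS : S.card ≤ Fintype.card J := Finset.card_le_univ S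
  have hq : ∀ u : (ZMod m)ˣ, m * (S.card + r + 1 - Fintype.card J) ≤
      ∑ j ∈ S, ((u : ZMod m) * a j).val := by
    intro u
    by_contra hcon
    push Not at hcon
    obtain ⟨s, hs⟩ : m ∣ ∑ j ∈ S, ((u : ZMod m) * a j).val := by
      rw [← ZMod.natCast_eq_zero_iff]
      push_cast
      simp only [ZMod.natCast_val, ZMod.cast_id', id_eq]
      rw [← Finset.mul_sum, hSsum, mul_zero]
    rw [hs] at hcon
    have hs1 : s < S.card + r + 1 - Fintype.card J := lt_of_mul_lt_mul_left hcon (Nat.zero_le m)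
    obtain ⟨i, hi⟩ := hne
    set b₀ : J → ℕ := fun j => if j ∈ S then ((u : ZMod m) * a j).val else m with hb₀
    have hb₀sum : ∑ j, b₀ j = m * s + m * (Fintype.card J - S.card) := by
      rw [hb₀, Finset.sum_ite]
      congr 1
      · rw [← hs]
        apply Finset.sum_congr _ fun _ _ => rfl
        ext j
        simp
      · rw [Finset.sum_const, smul_eq_mul, mul_comm]
        congr 1
        have h1 : (Finset.univ.filter fun j => j ∉ S) = Finset.univ \ S := by
          ext j
          simp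
        rw [h1, Finset.card_sdiff_of_subset (Finset.subset_univ S), Finset.card_univ]
    have hle : s + (Fintype.card J - S.card) ≤ r := by omega
    set n : ℕ := r - (s + (Fintype.card J - S.card)) with hn
    set b : J → ℕ := fun j => b₀ j + if j = i then m * n else 0 with hb
    have hb1 : ∀ j, 1 ≤ b j := by
      intro j
      have h1 : 1 ≤ b₀ j := by
        simp only [hb₀]
        split_ifs with hj
        · have h2 : (u : ZMod m) * a j ≠ 0 := by
            intro h0
            exact (hS j).1 hj ((Units.mul_right_eq_zero u).1 h0)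
          exact Nat.one_le_iff_ne_zero.2 fun h0 => h2 ((ZMod.val_eq_zero _).1 h0)
        · exact hm0
      exact h1.trans (Nat.le_add_right _ _)
    have hb2 : ∑ j, b j = r * m := by
      rw [hb, Finset.sum_add_distrib, hb₀sum, Finset.sum_ite_eq' Finset.univ i]
      simp only [Finset.mem_univ, if_true]
      rw [← mul_add, ← mul_add, mul_comm]
      congr 1
      omega
    obtain ⟨h, hh, h3⟩ := hH b hb1 hb2
    apply h3
    have h4 : ∀ j, (b j : ZMod m) = u * a j := by
      intro j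
      simp only [hb, hb₀]
      push_cast
      by_cases hj : j ∈ S
      · simp only [hj, if_true]
        simp
      · have h5 : a j = 0 := by
          by_contra h0
          exact hj ((hS j).2 h0)
        simp [hj, h5]
    rw [Finset.sum_congr rfl fun j _ => by rw [h4 j, mul_assoc], ← Finset.mul_sum, ha h hh,
      mul_zero]
  obtain ⟨e, b, hqe, hb1, hb2, hb3⟩ := exists_split hm a S (fun j hj => (hS j).1 hj) hSsum _ hq
  have he : 0 < e := by
    obtain ⟨i, hi⟩ := hne
    exact lt_of_le_of_lt (Nat.zero_le _) (hb1 i hi)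
  refine ⟨e, fun j => if h : b j < e then ⟨b j, h⟩ else ⟨0, he⟩, ?_, ?_, ?_⟩
  · intro B
    obtain ⟨j, hj, hjB⟩ := hb2 B.1 B.2
    refine ⟨j, hj, ?_⟩
    simp only [dif_pos (hb1 j hj)]
    exact Fin.ext hjB
  · intro B
    rw [← hb3 B.1 B.2]
    apply Finset.sum_congr _ fun _ _ => rfl
    ext j
    simp only [Finset.mem_filter]
    constructor
    · rintro ⟨h1, h2⟩
      rw [dif_pos (hb1 j h1)] at h2
      exact ⟨h1, by rw [← h2]⟩
    · rintro ⟨h1, h2⟩
      refine ⟨h1, ?_⟩
      rw [dif_pos (hb1 j h1)]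
      exact Fin.ext h2
  · omega

/-- **Bloch's conjecture** for the quotients by `H` over the complex numbers as coefficients. -/
theorem quotient_complex [IsAlgClosed k] [CharZero k]
    (hm : m = 2 ∨ m = 3 ∨ m = 4 ∨ m = 5 ∨ m = 7) {ζ : kˣ} (hζ : IsPrimitiveRoot (ζ : k) m)
    {r : ℕ} (c : Fin r → J → k) (H : AddSubgroup (J → ZMod m)) [Fintype H]
    (hH : ∀ b : J → ℕ, (∀ j, 1 ≤ b j) → ∑ j, b j = r * m →
      ∃ h ∈ H, ∑ j, (b j : ZMod m) * h j ≠ 0)
    {p q : ℙ k (J → k)} (hp : p ∈ Diag m c) (hq : q ∈ Diag m c) :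
    ∑ h : H, (Finsupp.single (act ζ h.1 p) (1 : ℂ) - Finsupp.single (act ζ h.1 q) 1) ∈
      ratEquiv ℂ (Diag m c) := by
  classical
  have hm0 : 0 < m := NeZero.pos m
  have hζ1 : ζ ^ m = 1 := by
    apply Units.ext
    push_cast
    exact hζ.pow_eq_one
  have hω := Complex.isPrimitiveRoot_exp m (NeZero.ne m)
  set ω : ℂ := Complex.exp (2 * Real.pi * Complex.I / m) with hωdef
  -- each character of the quotient
  have key : ∀ ψ : AddChar ((J → ZMod m) ⧸ H) ℂ,
      op ζ (ψ.compAddMonoidHom (QuotientAddGroup.mk' H)) (Finsupp.single p 1) -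
      op ζ (ψ.compAddMonoidHom (QuotientAddGroup.mk' H)) (Finsupp.single q 1) ∈
        ratEquiv ℂ (Diag m c) := by
    intro ψ
    set ψ' := ψ.compAddMonoidHom (QuotientAddGroup.mk' H) with hψ'
    obtain ⟨a, ha⟩ := exists_exponents hω ψ'
    by_cases h0 : ∀ j, a j = 0
    · apply trivial_part hζ c hp hq
      intro t
      rw [ha]
      simp [h0]
    push Not at h0
    by_cases hsum : ∑ j, a j = 0
    · have haH : ∀ h ∈ H, ∑ j, a j * h j = 0 := by
        intro h hh
        have h1 : ψ' h = 1 := by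
          rw [hψ', AddChar.compAddMonoidHom_apply]
          have : QuotientAddGroup.mk' H h = 0 := (QuotientAddGroup.eq_zero_iff h).2 hh
          rw [this, AddChar.map_zero_eq_one]
        rw [ha, hω.pow_eq_one_iff_dvd] at h1
        exact (ZMod.val_eq_zero _).1 (Nat.eq_zero_of_dvd_of_lt h1 (ZMod.val_lt _))
      set S : Finset J := Finset.univ.filter fun j => a j ≠ 0 with hSdef
      have hS : ∀ j, j ∈ S ↔ a j ≠ 0 := by
        intro j
        simp [hSdef]
      have hne : S.Nonempty := by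
        obtain ⟨j, hj⟩ := h0
        exact ⟨j, (hS j).2 hj⟩
      obtain ⟨e, b, hb, hbsum, hcard⟩ := exists_blocks hm H hH haH hsum hS hne
      exact Submodule.sub_mem _ (vanish hζ c hω ha hS hne b hb hbsum hcard hp)
        (vanish hζ c hω ha hS hne b hb hbsum hcard hq)
    · have h1 : ψ' (fun _ => 1) ≠ 1 := by
        rw [ha]
        intro h2
        rw [hω.pow_eq_one_iff_dvd] at h2
        apply hsum
        have h3 := (ZMod.val_eq_zero _).1 (Nat.eq_zero_of_dvd_of_lt h2 (ZMod.val_lt _))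
        simpa using h3
      rw [op_eq_zero hζ1 ψ' (act_const ζ 1 p) h1, op_eq_zero hζ1 ψ' (act_const ζ 1 q) h1, sub_zero]
      exact Submodule.zero_mem _
  -- summation over all characters
  have hsum : ∀ p : ℙ k (J → k), ∑ ψ : AddChar ((J → ZMod m) ⧸ H) ℂ,
      op ζ (ψ.compAddMonoidHom (QuotientAddGroup.mk' H)) (Finsupp.single p 1) =
      (Fintype.card ((J → ZMod m) ⧸ H) : ℂ) • ∑ h : H, Finsupp.single (act ζ h.1 p) (1 : ℂ) := by
    intro p
    simp only [op_single]
    rw [Finset.sum_comm]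
    have h1 : ∀ g : J → ZMod m, ∑ ψ : AddChar ((J → ZMod m) ⧸ H) ℂ,
        Finsupp.single (act ζ g p) ((ψ.compAddMonoidHom (QuotientAddGroup.mk' H)) g) =
        if g ∈ H then Finsupp.single (act ζ g p) (Fintype.card ((J → ZMod m) ⧸ H) : ℂ) else 0 := by
      intro g
      rw [← Finsupp.single_finsetSum]
      have h2 : ∑ ψ : AddChar ((J → ZMod m) ⧸ H) ℂ,
          (ψ.compAddMonoidHom (QuotientAddGroup.mk' H)) g =
          if (QuotientAddGroup.mk' H g) = 0 then (Fintype.card ((J → ZMod m) ⧸ H) : ℂ) else 0 := by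
        rw [← AddChar.sum_apply_eq_ite]
        rfl
      rw [h2]
      by_cases hg : g ∈ H
      · have h3 : QuotientAddGroup.mk' H g = 0 := (QuotientAddGroup.eq_zero_iff g).2 hg
        rw [if_pos hg, if_pos h3]
      · have h3 : ¬ QuotientAddGroup.mk' H g = 0 := fun h =>
          hg ((QuotientAddGroup.eq_zero_iff g).1 h)
        rw [if_neg hg, if_neg h3, Finsupp.single_zero]
    rw [Finset.sum_congr rfl fun g _ => h1 g, ← Finset.sum_filter, Finset.smul_sum]
    have h3 : (Finset.univ.filter fun g : J → ZMod m => g ∈ H) =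
        Finset.univ.map ⟨fun h : H => h.1, Subtype.val_injective⟩ := by
      ext g
      simp
    rw [h3, Finset.sum_map]
    apply Finset.sum_congr rfl
    intro h _
    rw [Finsupp.smul_single, smul_eq_mul, mul_one]
    rfl
  have hfin : (Fintype.card ((J → ZMod m) ⧸ H) : ℂ) •
      ∑ h : H, (Finsupp.single (act ζ h.1 p) (1 : ℂ) - Finsupp.single (act ζ h.1 q) 1) ∈
      ratEquiv ℂ (Diag m c) := by
    rw [Finset.sum_sub_distrib, smul_sub, ← hsum, ← hsum, ← Finset.sum_sub_distrib]
    exact Submodule.sum_mem _ fun ψ _ => key ψ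
  exact (Submodule.smul_mem_iff _ (Nat.cast_ne_zero.2 Fintype.card_ne_zero)).1 hfin

/-- **Bloch's conjecture** for the quotients by `H`, rational coefficients. -/
theorem quotient_rational [IsAlgClosed k] [CharZero k]
    (hm : m = 2 ∨ m = 3 ∨ m = 4 ∨ m = 5 ∨ m = 7) {ζ : kˣ} (hζ : IsPrimitiveRoot (ζ : k) m)
    {r : ℕ} (c : Fin r → J → k) (H : AddSubgroup (J → ZMod m)) [Fintype H]
    (hH : ∀ b : J → ℕ, (∀ j, 1 ≤ b j) → ∑ j, b j = r * m →
      ∃ h ∈ H, ∑ j, (b j : ZMod m) * h j ≠ 0)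
    {p q : ℙ k (J → k)} (hp : p ∈ Diag m c) (hq : q ∈ Diag m c) :
    ∑ h : H, (Finsupp.single (act ζ h.1 p) (1 : ℚ) - Finsupp.single (act ζ h.1 q) 1) ∈
      ratEquiv ℚ (Diag m c) := by
  apply descent (R := ℂ)
  have h1 : Finsupp.mapRange (algebraMap ℚ ℂ) (map_zero _)
      (∑ h : H, (Finsupp.single (act ζ h.1 p) (1 : ℚ) - Finsupp.single (act ζ h.1 q) 1)) =
      ∑ h : H, (Finsupp.single (act ζ h.1 p) (1 : ℂ) - Finsupp.single (act ζ h.1 q) 1) := by
    have h2 : ∀ z : ℙ k (J → k) →₀ ℚ, Finsupp.mapRange (algebraMap ℚ ℂ) (map_zero _) z =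
        Finsupp.mapRange.addMonoidHom (algebraMap ℚ ℂ : ℚ →+* ℂ).toAddMonoidHom z := fun _ => rfl
    rw [h2, map_sum]
    apply Finset.sum_congr rfl
    intro h _
    rw [map_sub]
    simp
  rw [h1]
  exact quotient_complex hm hζ c H hH hp hq

end Pool.Agent.DCI57
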