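import Pool.Agent.DCI57.Classes

/-!
# The action of the group algebra
-/

open scoped LinearAlgebra.Projectivization

namespace Pool.Agent.DCI57

open Pool.Agent.ZCyc

universe u w

variable {k : Type u} [Field k] {J : Type} [Fintype J] [DecidableEq J] {m : ℕ} [NeZero m]

/-- the numerical condition: if no conjugate of the character `a` occurs in the space of holomorphic
forms then the support of `a` can be divided into sufficiently many zero-sum blocks -/
lemma exists_blocks' (hm : m = 2 ∨ m = 3 ∨ m = 4 ∨ m = 5 ∨ m = 7) {r : ℕ} {a : J → ZMod m}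
    (ha : ∀ u : (ZMod m)ˣ, ∀ b : J → ℕ, (∀ j, 1 ≤ b j) → ∑ j, b j = r * m →
      ¬ ∀ j, (b j : ZMod m) = u * a j) (hsum : ∑ j, a j = 0) {S : Finset J}
    (hS : ∀ j, j ∈ S ↔ a j ≠ 0) (hne : S.Nonempty) :
    ∃ (e : ℕ) (b : J → Fin e), (∀ B, ∃ j ∈ S, b j = B) ∧
      (∀ B, ∑ j ∈ S with b j = B, a j = 0) ∧ S.card + r < Fintype.card J + e := by
  classical
  have hm0 : 0 < m := NeZero.pos m
  have hSsum : ∑ j ∈ S, a j = 0 := by
    rw [← hsum]
    apply Finset.sum_subset (Finset.subset_univ S)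
    intro j _ hj
    by_contra h0
    exact hj ((hS j).2 h0)
  have hcardS : S.card ≤ Fintype.card J := Finset.card_le_univ S
  have hq : ∀ u : (ZMod m)ˣ, m * (S.card + r + 1 - Fintype.card J) ≤
      ∑ j ∈ S, ((u : ZMod m) * a j).val := by
    intro u
    by_contra hcon
    push Not at hcon
    obtain ⟨s, hs⟩ : m ∣ ∑ j ∈ S, ((u : ZMod m) * a j).val := by
      rw [← ZMod.natCast_eq_zero_iff]
      push_cast
      simp only [ZMod.natCast_val, ZMod.cast_id', id_eq]
      rw [← Finset.mul_sum, hSsum, mul_zero]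
    rw [hs] at hcon
    have hs1 : s < S.card + r + 1 - Fintype.card J := lt_of_mul_lt_mul_left hcon (Nat.zero_le m)
    obtain ⟨i, hi⟩ := hne
    set b₀ : J → ℕ := fun j => if j ∈ S then ((u : ZMod m) * a j).val else m with hb₀
    have hb₀sum : ∑ j, b₀ j = m * s + m * (Fintype.card J - S.card) := by
      rw [hb₀, Finset.sum_ite]
      congr 1
      · rw [← hs]
        apply Finset.sum_congr _ fun _ _ => rfl
        ext j
        simp
      · rw [Finset.sum_const, smul_eq_mul, mul_comm]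
        congr 1
        have h1 : (Finset.univ.filter fun j => j ∉ S) = Finset.univ \ S := by
          ext j
          simp
        rw [h1, Finset.card_sdiff_of_subset (Finset.subset_univ S), Finset.card_univ]
    have hle : s + (Fintype.card J - S.card) ≤ r := by omega
    set n : ℕ := r - (s + (Fintype.card J - S.card)) with hn
    set b : J → ℕ := fun j => b₀ j + if j = i then m * n else 0 with hb
    have hb1 : ∀ j, 1 ≤ b j := by
      intro j
      have h1 : 1 ≤ b₀ j := by
        simp only [hb₀]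
        split_ifs with hj
        · have h2 : (u : ZMod m) * a j ≠ 0 := by
            intro h0
            exact (hS j).1 hj ((Units.mul_right_eq_zero u).1 h0)
          exact Nat.one_le_iff_ne_zero.2 fun h0 => h2 ((ZMod.val_eq_zero _).1 h0)
        · exact hm0
      exact h1.trans (Nat.le_add_right _ _)
    have hb2 : ∑ j, b j = r * m := by
      rw [hb, Finset.sum_add_distrib, hb₀sum, Finset.sum_ite_eq' Finset.univ i]
      simp only [Finset.mem_univ, if_true]
      rw [← mul_add, ← mul_add, mul_comm]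
      congr 1
      omega
    apply ha u b hb1 hb2
    intro j
    simp only [hb, hb₀]
    push_cast
    by_cases hj : j ∈ S
    · simp only [hj, if_true]
      simp
    · have h5 : a j = 0 := by
        by_contra h0
        exact hj ((hS j).2 h0)
      simp [hj, h5]
  obtain ⟨e, b, hqe, hb1, hb2, hb3⟩ := exists_split hm a S (fun j hj => (hS j).1 hj) hSsum _ hq
  have he : 0 < e := by
    obtain ⟨i, hi⟩ := hne
    exact lt_of_le_of_lt (Nat.zero_le _) (hb1 i hi)
  refine ⟨e, fun j => if h : b j < e then ⟨b j, h⟩ else ⟨0, he⟩, ?_, ?_, ?_⟩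
  · intro B
    obtain ⟨j, hj, hjB⟩ := hb2 B.1 B.2
    refine ⟨j, hj, ?_⟩
    simp only [dif_pos (hb1 j hj)]
    exact Fin.ext hjB
  · intro B
    rw [← hb3 B.1 B.2]
    apply Finset.sum_congr _ fun _ _ => rfl
    ext j
    simp only [Finset.mem_filter]
    constructor
    · rintro ⟨h1, h2⟩
      rw [dif_pos (hb1 j h1)] at h2
      exact ⟨h1, by rw [← h2]⟩
    · rintro ⟨h1, h2⟩
      refine ⟨h1, ?_⟩
      rw [dif_pos (hb1 j h1)]
      exact Fin.ext h2
  · omega

omit [NeZero m] in
/-- the powers of a primitive root of unity at elements of `ZMod m` -/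
lemma pow_val_mul {R : Type*} [Field R] {ω : R} (hω : IsPrimitiveRoot ω m)
    (x y : ZMod m) : ω ^ (x * y).val = (ω ^ x.val) ^ y.val := by
  rw [ZMod.val_mul, ← pow_mul]
  conv_rhs => rw [← Nat.mod_add_div (x.val * y.val) m, pow_add, pow_mul ω m, hω.pow_eq_one,
    one_pow, mul_one]

/-- conjugation of a relation with rational coefficients between powers of a root of unity -/
lemma conj_relation {K L : Type*} [Field K] [CharZero K] [Field L] [CharZero L] {ζ : K} {ω : L}
    (hζ : IsPrimitiveRoot ζ m) (hω : IsPrimitiveRoot ω m) {ι : Type*} [Fintype ι] (α : ι → ℚ)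
    (n : ι → ℕ) (h : ∑ i, (α i : K) * ζ ^ n i = 0) : ∑ i, (α i : L) * ω ^ n i = 0 := by
  have hm : 0 < m := NeZero.pos m
  set P : Polynomial ℚ := ∑ i, Polynomial.C (α i) * Polynomial.X ^ n i with hP
  have h1 : Polynomial.aeval ζ P = 0 := by
    rw [hP, map_sum, ← h]
    apply Finset.sum_congr rfl
    intro i _
    simp
  have h2 : Polynomial.cyclotomic m ℚ ∣ P := by
    rw [Polynomial.cyclotomic_eq_minpoly_rat hζ hm]
    exact minpoly.dvd _ _ h1
  have h3 : Polynomial.aeval ω P = 0 := by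
    obtain ⟨Q, hQ⟩ := h2
    rw [hQ, map_mul]
    have h4 : Polynomial.aeval ω (Polynomial.cyclotomic m ℚ) = 0 := by
      rw [Polynomial.cyclotomic_eq_minpoly_rat hω hm]
      exact minpoly.aeval _ _
    rw [h4, zero_mul]
  rw [hP, map_sum] at h3
  rw [← h3]
  apply Finset.sum_congr rfl
  intro i _
  simp

/-- the action of the group algebra, complex coefficients -/
theorem algebra_complex [IsAlgClosed k] [CharZero k]
    (hm : m = 2 ∨ m = 3 ∨ m = 4 ∨ m = 5 ∨ m = 7) {ζ : kˣ} (hζ : IsPrimitiveRoot (ζ : k) m)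
    {r : ℕ} (c : Fin r → J → k) (α : (J → ZMod m) → ℚ)
    (hα : ∀ b : J → ℕ, (∀ j, 1 ≤ b j) → ∑ j, b j = r * m →
      ∑ g, (α g : k) * (ζ : k) ^ (∑ j, (b j : ZMod m) * g j).val = 0)
    {p q : ℙ k (J → k)} (hp : p ∈ Diag m c) (hq : q ∈ Diag m c) :
    ∑ g, (α g : ℂ) • (Finsupp.single (act ζ g p) (1 : ℂ) - Finsupp.single (act ζ g q) 1) ∈
      ratEquiv ℂ (Diag m c) := by
  classical
  have hm0 : 0 < m := NeZero.pos m
  have hζ1 : ζ ^ m = 1 := by
    apply Units.ext
    push_cast
    exact hζ.pow_eq_one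
  have hω := Complex.isPrimitiveRoot_exp m (NeZero.ne m)
  set ω : ℂ := Complex.exp (2 * Real.pi * Complex.I / m) with hωdef
  -- each character
  have key : ∀ ψ : AddChar (J → ZMod m) ℂ,
      (∑ h, (α h : ℂ) * ψ (-h)) • (op ζ ψ (Finsupp.single p 1) - op ζ ψ (Finsupp.single q 1)) ∈
        ratEquiv ℂ (Diag m c) := by
    intro ψ
    by_cases hψα : ∑ h, (α h : ℂ) * ψ (-h) = 0
    · rw [hψα, zero_smul]
      exact Submodule.zero_mem _
    apply Submodule.smul_mem
    obtain ⟨a, ha⟩ := exists_exponents hω ψ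
    by_cases h0 : ∀ j, a j = 0
    · apply trivial_part hζ c hp hq
      intro t
      rw [ha]
      simp [h0]
    push Not at h0
    by_cases hsum : ∑ j, a j = 0
    · set S : Finset J := Finset.univ.filter fun j => a j ≠ 0 with hSdef
      have hS : ∀ j, j ∈ S ↔ a j ≠ 0 := by
        intro j
        simp [hSdef]
      have hne : S.Nonempty := by
        obtain ⟨j, hj⟩ := h0
        exact ⟨j, (hS j).2 hj⟩
      obtain ⟨e, b, hb, hbsum, hcard⟩ := exists_blocks' hm (a := a) (r := r) (by
        intro u b hb1 hb2 hb3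
        apply hψα
        have h1 := hα b hb1 hb2
        -- the root of unity `ω ^ (-u⁻¹)`
        have h2 : IsPrimitiveRoot (ω ^ ((-u⁻¹ : (ZMod m)ˣ) : ZMod m).val) m :=
          hω.pow_of_coprime _ (ZMod.val_coe_unit_coprime _)
        have h3 := conj_relation hζ h2 α (fun g => (∑ j, (b j : ZMod m) * g j).val) h1
        rw [← h3]
        apply Finset.sum_congr rfl
        intro g _
        congr 1
        rw [ha, ← pow_val_mul hω]
        congr 2
        simp only [hb3]
        rw [Finset.mul_sum]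
        apply Finset.sum_congr rfl
        intro j _
        have h4 : ((-u⁻¹ : (ZMod m)ˣ) : ZMod m) * ((u : ZMod m) * a j * g j) =
            -(((u⁻¹ : (ZMod m)ˣ) : ZMod m) * (u : ZMod m)) * (a j * g j) := by
          push_cast
          ring
        rw [h4, Units.inv_mul, Pi.neg_apply]
        ring) hsum hS hne
      exact Submodule.sub_mem _ (vanish hζ c hω ha hS hne b hb hbsum hcard hp)
        (vanish hζ c hω ha hS hne b hb hbsum hcard hq)
    · have h1 : ψ (fun _ => 1) ≠ 1 := by
        rw [ha]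
        intro h2
        rw [hω.pow_eq_one_iff_dvd] at h2
        apply hsum
        have h3 := (ZMod.val_eq_zero _).1 (Nat.eq_zero_of_dvd_of_lt h2 (ZMod.val_lt _))
        simpa using h3
      rw [op_eq_zero hζ1 ψ (act_const ζ 1 p) h1, op_eq_zero hζ1 ψ (act_const ζ 1 q) h1, sub_zero]
      exact Submodule.zero_mem _
  -- summation over all characters
  have hsum : ∀ p : ℙ k (J → k), ∑ ψ : AddChar (J → ZMod m) ℂ,
      (∑ h, (α h : ℂ) * ψ (-h)) • op ζ ψ (Finsupp.single p 1) =
      (Fintype.card (J → ZMod m) : ℂ) • ∑ g, (α g : ℂ) • Finsupp.single (act ζ g p) (1 : ℂ) := by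
    intro p
    simp only [op_single, Finset.smul_sum]
    rw [Finset.sum_comm]
    apply Finset.sum_congr rfl
    intro g _
    have h1 : ∀ ψ : AddChar (J → ZMod m) ℂ, (∑ h, (α h : ℂ) * ψ (-h)) •
        Finsupp.single (act ζ g p) (ψ g) =
        Finsupp.single (act ζ g p) (∑ h, (α h : ℂ) * ψ (g - h)) := by
      intro ψ
      rw [Finsupp.smul_single, smul_eq_mul, Finset.sum_mul]
      congr 1
      apply Finset.sum_congr rfl
      intro h _
      rw [sub_eq_add_neg, AddChar.map_add_eq_mul]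
      ring
    rw [Finset.sum_congr rfl fun ψ _ => h1 ψ, ← Finsupp.single_finsetSum, Finset.sum_comm]
    have h2 : ∀ h : J → ZMod m, ∑ ψ : AddChar (J → ZMod m) ℂ, (α h : ℂ) * ψ (g - h) =
        if h = g then (α h : ℂ) * (Fintype.card (J → ZMod m) : ℂ) else 0 := by
      intro h
      rw [← Finset.mul_sum, AddChar.sum_apply_eq_ite]
      by_cases hg : h = g
      · rw [if_pos hg, if_pos (sub_eq_zero.2 hg.symm)]
      · rw [if_neg hg, if_neg fun h' => hg (sub_eq_zero.1 h').symm, mul_zero]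
    rw [Finset.sum_congr rfl fun h _ => h2 h, Finset.sum_ite_eq' Finset.univ g]
    simp only [Finset.mem_univ, if_true]
    rw [Finsupp.smul_single, Finsupp.smul_single, smul_eq_mul, smul_eq_mul, mul_one, mul_comm]
  have hfin : (Fintype.card (J → ZMod m) : ℂ) •
      ∑ g, (α g : ℂ) • (Finsupp.single (act ζ g p) (1 : ℂ) - Finsupp.single (act ζ g q) 1) ∈
      ratEquiv ℂ (Diag m c) := by
    simp only [smul_sub, Finset.sum_sub_distrib]
    rw [← hsum, ← hsum, ← Finset.sum_sub_distrib]
    simp only [← smul_sub]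
    exact Submodule.sum_mem _ fun ψ _ => key ψ
  exact (Submodule.smul_mem_iff _ (Nat.cast_ne_zero.2 Fintype.card_ne_zero)).1 hfin

/-- the action of the group algebra, rational coefficients -/
theorem algebra_rational [IsAlgClosed k] [CharZero k]
    (hm : m = 2 ∨ m = 3 ∨ m = 4 ∨ m = 5 ∨ m = 7) {ζ : kˣ} (hζ : IsPrimitiveRoot (ζ : k) m)
    {r : ℕ} (c : Fin r → J → k) (α : (J → ZMod m) → ℚ)
    (hα : ∀ b : J → ℕ, (∀ j, 1 ≤ b j) → ∑ j, b j = r * m →
      ∑ g, (α g : k) * (ζ : k) ^ (∑ j, (b j : ZMod m) * g j).val = 0)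
    {p q : ℙ k (J → k)} (hp : p ∈ Diag m c) (hq : q ∈ Diag m c) :
    ∑ g, α g • (Finsupp.single (act ζ g p) (1 : ℚ) - Finsupp.single (act ζ g q) 1) ∈
      ratEquiv ℚ (Diag m c) := by
  apply descent (R := ℂ)
  have h1 : Finsupp.mapRange (algebraMap ℚ ℂ) (map_zero _)
      (∑ g, α g • (Finsupp.single (act ζ g p) (1 : ℚ) - Finsupp.single (act ζ g q) 1)) =
      ∑ g, (α g : ℂ) • (Finsupp.single (act ζ g p) (1 : ℂ) - Finsupp.single (act ζ g q) 1) := by
    have h2 : ∀ z : ℙ k (J → k) →₀ ℚ, Finsupp.mapRange (algebraMap ℚ ℂ) (map_zero _) z =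
        Finsupp.mapRange.addMonoidHom (algebraMap ℚ ℂ : ℚ →+* ℂ).toAddMonoidHom z := fun _ => rfl
    rw [h2, map_sum]
    apply Finset.sum_congr rfl
    intro g _
    rw [smul_sub, smul_sub, map_sub]
    simp
  rw [h1]
  exact algebra_complex hm hζ c α hα hp hq

/-- the action of the group algebra on cycles of degree zero -/
theorem algebra_cycle [IsAlgClosed k] [CharZero k]
    (hm : m = 2 ∨ m = 3 ∨ m = 4 ∨ m = 5 ∨ m = 7) {ζ : kˣ} (hζ : IsPrimitiveRoot (ζ : k) m)
    {r : ℕ} (c : Fin r → J → k) (α : (J → ZMod m) → ℚ)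
    (hα : ∀ b : J → ℕ, (∀ j, 1 ≤ b j) → ∑ j, b j = r * m →
      ∑ g, (α g : k) * (ζ : k) ^ (∑ j, (b j : ZMod m) * g j).val = 0)
    (z : ℙ k (J → k) →₀ ℚ) (hz : ∀ p ∈ z.support, p ∈ Diag m c)
    (hdeg : z.sum (fun _ n => n) = 0) :
    ∑ g, α g • z.mapDomain (act ζ g) ∈ ratEquiv ℚ (Diag m c) := by
  classical
  rcases z.support.eq_empty_or_nonempty with h0 | ⟨q, hq⟩
  · rw [Finsupp.support_eq_empty] at h0
    rw [h0]
    simp
  have hdeg' : ∑ p ∈ z.support, z p = 0 := hdeg
  have h2 : z = ∑ p ∈ z.support, z p • Finsupp.single p (1 : ℚ) := by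
    conv_lhs => rw [← z.sum_single]
    rw [Finsupp.sum]
    apply Finset.sum_congr rfl
    intro p _
    simp
  have h3 : ∑ g, α g • z.mapDomain (act ζ g) = ∑ p ∈ z.support, z p • ∑ g,
      α g • (Finsupp.single (act ζ g p) (1 : ℚ) - Finsupp.single (act ζ g q) 1) := by
    have h4 : ∀ g : J → ZMod m, z.mapDomain (act ζ g) =
        ∑ p ∈ z.support, z p • Finsupp.single (act ζ g p) (1 : ℚ) := by
      intro g
      conv_lhs => rw [h2]
      rw [Finsupp.mapDomain_finsetSum]
      apply Finset.sum_congr rfl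
      intro p _
      rw [Finsupp.mapDomain_smul, Finsupp.mapDomain_single]
    have h5 : ∀ g : J → ZMod m,
        ∑ p ∈ z.support, z p • Finsupp.single (act ζ g q) (1 : ℚ) = 0 := by
      intro g
      rw [← Finset.sum_smul, hdeg', zero_smul]
    simp only [Finset.smul_sum]
    rw [Finset.sum_comm]
    apply Finset.sum_congr rfl
    intro g _
    have h6 : ∀ p : ℙ k (J → k), z p • α g • (Finsupp.single (act ζ g p) (1 : ℚ) -
        Finsupp.single (act ζ g q) 1) = α g • (z p • Finsupp.single (act ζ g p) (1 : ℚ) -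
        z p • Finsupp.single (act ζ g q) (1 : ℚ)) := by
      intro p
      rw [← smul_sub, smul_comm]
    rw [Finset.sum_congr rfl fun p _ => h6 p, ← Finset.smul_sum, Finset.sum_sub_distrib, h5,
      sub_zero, h4]
  rw [h3]
  apply Submodule.sum_mem
  intro p hp
  exact Submodule.smul_mem _ _ (algebra_rational hm hζ c α hα (hz p hp) (hz q hq))

end Pool.Agent.DCI57
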