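import Pool.Agent.DCI57.Final

/-!
# Classes of zero-cycles which are invariant or belong to a character
-/

open scoped LinearAlgebra.Projectivization

namespace Pool.Agent.DCI57

open Pool.Agent.ZCyc

universe u w

variable {k : Type u} [Field k] {J : Type} [Fintype J] [DecidableEq J] {m : ℕ} [NeZero m]
  {R : Type w} [Field R] [CharZero R]

omit [CharZero R] in
/-- the operator as a sum of direct images -/
lemma op_eq_sum (ζ : kˣ) (ψ : AddChar (J → ZMod m) R) (z : ℙ k (J → k) →₀ R) :
    op ζ ψ z = ∑ g : J → ZMod m, ψ g • z.mapDomain (act ζ g) := by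
  classical
  induction z using Finsupp.induction_linear with
  | zero => simp
  | add f g hf hg =>
    rw [map_add, hf, hg, ← Finset.sum_add_distrib]
    apply Finset.sum_congr rfl
    intro t _
    rw [Finsupp.mapDomain_add, smul_add]
  | single p a =>
    have h1 : Finsupp.single p a = a • Finsupp.single p (1 : R) := by simp
    rw [h1, map_smul, op_single, Finset.smul_sum]
    apply Finset.sum_congr rfl
    intro t _
    rw [Finsupp.mapDomain_smul, Finsupp.mapDomain_single]
    simp [mul_comm]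

/-- a class which belongs to a character with many blocks is zero -/
theorem isotypic [IsAlgClosed k] [CharZero k] {ζ : kˣ} (hζ : IsPrimitiveRoot (ζ : k) m) {r : ℕ}
    (c : Fin r → J → k) {ω : R} (hω : IsPrimitiveRoot ω m) {a : J → ZMod m}
    (hne : ∃ j, a j ≠ 0) {e : ℕ} (b : J → Fin e)
    (hb : ∀ B, ∃ j, b j = B ∧ a j ≠ 0) (hsum : ∀ B, ∑ j with b j = B, a j = 0)
    (hcard : (Finset.univ.filter fun j => a j ≠ 0).card + r < Fintype.card J + e)
    (z : ℙ k (J → k) →₀ R) (hz : ∀ p ∈ z.support, p ∈ Diag m c)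
    (hchi : ∀ g : J → ZMod m, z.mapDomain (act ζ g) - ω ^ (∑ j, a j * g j).val • z ∈
      ratEquiv R (Diag m c)) : z ∈ ratEquiv R (Diag m c) := by
  classical
  have hm : 1 < m := by
    obtain ⟨j, hj⟩ := hne
    by_contra hcon
    have h1 : m = 1 := le_antisymm (not_lt.1 hcon) (NeZero.pos m)
    subst h1
    exact hj (Subsingleton.elim _ _)
  -- the inverse character
  have hpow : ∀ x y : ZMod m, ω ^ (x + y).val = ω ^ x.val * ω ^ y.val := by
    intro x y
    rw [ZMod.val_add, ← pow_add]
    conv_rhs => rw [← Nat.mod_add_div (x.val + y.val) m, pow_add, pow_mul, hω.pow_eq_one, one_pow,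
      mul_one]
  set ψ : AddChar (J → ZMod m) R :=
    { toFun := fun g => ω ^ (∑ j, (-a) j * g j).val
      map_zero_eq_one' := by simp
      map_add_eq_mul' := by
        intro x y
        rw [← hpow, ← Finset.sum_add_distrib]
        simp only [Pi.add_apply, mul_add] } with hψdef
  have hψ : ∀ t, ψ t = ω ^ (∑ j, (-a) j * t j).val := fun t => rfl
  have hψ1 : ∀ t, ψ t * ω ^ (∑ j, a j * t j).val = 1 := by
    intro t
    rw [hψ, ← hpow, ← Finset.sum_add_distrib]
    simp
  set S : Finset J := Finset.univ.filter fun j => a j ≠ 0 with hSdef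
  have hS : ∀ j, j ∈ S ↔ (-a) j ≠ 0 := by
    intro j
    simp [hSdef]
  have hv : ∀ p ∈ Diag m c, op ζ ψ (Finsupp.single p 1) ∈ ratEquiv R (Diag m c) := by
    intro p hp
    refine vanish hζ c hω hψ hS ?_ b ?_ ?_ hcard hp
    · obtain ⟨j, hj⟩ := hne
      exact ⟨j, by simp [hSdef, hj]⟩
    · intro B
      obtain ⟨j, h1, h2⟩ := hb B
      exact ⟨j, by simp [hSdef, h2], h1⟩
    · intro B
      have h1 : ∑ j ∈ S with b j = B, (-a) j = - ∑ j with b j = B, a j := by
        rw [← Finset.sum_neg_distrib]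
        apply Finset.sum_subset
        · intro j hj
          simp only [Finset.mem_filter, Finset.mem_univ, true_and] at hj ⊢
          exact hj.2
        · intro j hj hj'
          simp only [Finset.mem_filter, Finset.mem_univ, true_and, hS, not_and', not_not] at hj hj'
          exact hj' hj
      rw [h1, hsum, neg_zero]
  have h1 : op ζ ψ z ∈ ratEquiv R (Diag m c) := by
    have h2 : z = ∑ p ∈ z.support, z p • Finsupp.single p (1 : R) := by
      conv_lhs => rw [← z.sum_single]
      rw [Finsupp.sum]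
      apply Finset.sum_congr rfl
      intro p _
      simp
    rw [h2, map_sum]
    apply Submodule.sum_mem
    intro p hp
    rw [map_smul]
    exact Submodule.smul_mem _ _ (hv p (hz p hp))
  have h2 : op ζ ψ z - (Fintype.card (J → ZMod m) : R) • z ∈ ratEquiv R (Diag m c) := by
    have h3 : (Fintype.card (J → ZMod m) : R) • z = ∑ _g : J → ZMod m, z := by
      rw [Finset.sum_const, Finset.card_univ, Nat.cast_smul_eq_nsmul]
    rw [op_eq_sum, h3, ← Finset.sum_sub_distrib]
    apply Submodule.sum_mem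
    intro g _
    have h4 : ψ g • z.mapDomain (act ζ g) - z =
        ψ g • (z.mapDomain (act ζ g) - ω ^ (∑ j, a j * g j).val • z) := by
      rw [smul_sub, smul_smul, hψ1, one_smul]
    rw [h4]
    exact Submodule.smul_mem _ _ (hchi g)
  have h3 : (Fintype.card (J → ZMod m) : R) • z ∈ ratEquiv R (Diag m c) := by
    have h4 := Submodule.sub_mem _ h1 h2
    rwa [sub_sub_cancel] at h4
  exact (Submodule.smul_mem_iff _ (Nat.cast_ne_zero.2 Fintype.card_ne_zero)).1 h3

/-- **Bloch's conjecture** for the quotients by `H`. -/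
theorem invariant [IsAlgClosed k] [CharZero k]
    (hm : m = 2 ∨ m = 3 ∨ m = 4 ∨ m = 5 ∨ m = 7) {ζ : kˣ} (hζ : IsPrimitiveRoot (ζ : k) m)
    {r : ℕ} (c : Fin r → J → k) (H : AddSubgroup (J → ZMod m))
    (hH : ∀ b : J → ℕ, (∀ j, 1 ≤ b j) → ∑ j, b j = r * m →
      ∃ h ∈ H, ∑ j, (b j : ZMod m) * h j ≠ 0)
    (z : ℙ k (J → k) →₀ ℚ) (hz : ∀ p ∈ z.support, p ∈ Diag m c) (hdeg : z.sum (fun _ n => n) = 0)
    (hinv : ∀ h ∈ H, z.mapDomain (act ζ h) - z ∈ ratEquiv ℚ (Diag m c)) :
    z ∈ ratEquiv ℚ (Diag m c) := by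
  classical
  rcases z.support.eq_empty_or_nonempty with h0 | ⟨q, hq⟩
  · rw [Finsupp.support_eq_empty] at h0
    rw [h0]
    exact Submodule.zero_mem _
  have hdeg' : ∑ p ∈ z.support, z p = 0 := hdeg
  have h2 : z = ∑ p ∈ z.support, z p • Finsupp.single p (1 : ℚ) := by
    conv_lhs => rw [← z.sum_single]
    rw [Finsupp.sum]
    apply Finset.sum_congr rfl
    intro p _
    simp
  -- the sum of all translates
  have h1 : ∑ h : H, z.mapDomain (act ζ h.1) ∈ ratEquiv ℚ (Diag m c) := by
    have h3 : ∑ h : H, z.mapDomain (act ζ h.1) = ∑ p ∈ z.support, z p • ∑ h : H,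
        (Finsupp.single (act ζ h.1 p) (1 : ℚ) - Finsupp.single (act ζ h.1 q) 1) := by
      have h4 : ∀ h : H, z.mapDomain (act ζ h.1) =
          ∑ p ∈ z.support, z p • Finsupp.single (act ζ h.1 p) (1 : ℚ) := by
        intro h
        conv_lhs => rw [h2]
        rw [Finsupp.mapDomain_finsetSum]
        apply Finset.sum_congr rfl
        intro p _
        rw [Finsupp.mapDomain_smul, Finsupp.mapDomain_single]
      have h5 : ∀ h : H, ∑ p ∈ z.support, z p • Finsupp.single (act ζ h.1 q) (1 : ℚ) = 0 := by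
        intro h
        rw [← Finset.sum_smul, hdeg', zero_smul]
      simp only [Finset.smul_sum, smul_sub]
      rw [Finset.sum_comm]
      apply Finset.sum_congr rfl
      intro h _
      rw [Finset.sum_sub_distrib, h5, sub_zero, h4]
    rw [h3]
    apply Submodule.sum_mem
    intro p hp
    exact Submodule.smul_mem _ _ (quotient_rational hm hζ c H hH (hz p hp) (hz q hq))
  have h3 : ∑ h : H, z.mapDomain (act ζ h.1) - (Fintype.card H : ℚ) • z ∈
      ratEquiv ℚ (Diag m c) := by
    have h4 : (Fintype.card H : ℚ) • z = ∑ _h : H, z := by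
      rw [Finset.sum_const, Finset.card_univ, Nat.cast_smul_eq_nsmul]
    rw [h4, ← Finset.sum_sub_distrib]
    apply Submodule.sum_mem
    intro h _
    exact hinv h.1 h.2
  have h4 : (Fintype.card H : ℚ) • z ∈ ratEquiv ℚ (Diag m c) := by
    have h5 := Submodule.sub_mem _ h1 h3
    rwa [sub_sub_cancel] at h5
  exact (Submodule.smul_mem_iff _ (Nat.cast_ne_zero.2 Fintype.card_ne_zero)).1 h4

end Pool.Agent.DCI57
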