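import Mathlib

/-!
# A pencil of linear combinations
-/

namespace Pool.Agent.DCI57

/-- D4: a pencil of linear combinations -/
theorem exists_pencil {k : Type*} [Field k] {J : Type} [Fintype J] [DecidableEq J] {r e : ℕ}
    (c : Fin r → J → k) {z : J → k} {S : Finset J} (hz : ∀ j ∈ S, z j ≠ 0) (κ : J → Option (Fin e))
    (hκ : ∀ B, ∃ j ∈ S, κ j = B) (hcard : S.card + r < Fintype.card J + e) :
    ∃ (v : J → k) (β : Option (Fin e) → k), v ≠ 0 ∧ (∀ i, ∑ j, c i j * v j = 0) ∧ β none = 0 ∧
      ∀ j ∈ S, v j = β (κ j) * z j := by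
  classical
  let Φ : ((J → k) × (Option (Fin e) → k)) →ₗ[k] ((Fin r → k) × ((S → k) × k)) :=
    { toFun := fun w => (fun i => ∑ j, c i j * w.1 j,
        (fun j => w.1 j.1 - w.2 (κ j.1) * z j.1, w.2 none))
      map_add' := by
        intro w w'
        refine Prod.ext ?_ (Prod.ext ?_ ?_)
        · funext i
          simp only [Prod.fst_add, Pi.add_apply, mul_add, Finset.sum_add_distrib]
        · funext j
          simp only [Prod.fst_add, Prod.snd_add, Pi.add_apply]
          ring
        · simp only [Prod.snd_add, Pi.add_apply]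
      map_smul' := by
        intro a w
        refine Prod.ext ?_ (Prod.ext ?_ ?_)
        · funext i
          simp only [Prod.smul_fst, Pi.smul_apply, smul_eq_mul, RingHom.id_apply, Finset.mul_sum]
          refine Finset.sum_congr rfl fun j _ => ?_
          ring
        · funext j
          simp only [Prod.smul_fst, Prod.smul_snd, Pi.smul_apply, smul_eq_mul, RingHom.id_apply]
          ring
        · simp only [Prod.smul_snd, Pi.smul_apply, smul_eq_mul, RingHom.id_apply] }
  have hker : LinearMap.ker Φ ≠ ⊥ := by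
    apply LinearMap.ker_ne_bot_of_finrank_lt
    simp only [Module.finrank_prod, Module.finrank_fintype_fun_eq_card, Fintype.card_fin,
      Fintype.card_option, Fintype.card_coe, Module.finrank_self]
    omega
  obtain ⟨w, hw, hw0⟩ := Submodule.exists_mem_ne_zero_of_ne_bot hker
  have h := LinearMap.mem_ker.1 hw
  have h1 : ∀ i, ∑ j, c i j * w.1 j = 0 := fun i => congrFun (congrArg Prod.fst h) i
  have h2 : ∀ j : S, w.1 j.1 - w.2 (κ j.1) * z j.1 = 0 := fun j =>
    congrFun (congrArg (fun p => p.2.1) h) j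
  have h3 : w.2 none = 0 := congrArg (fun p => p.2.2) h
  refine ⟨w.1, w.2, ?_, h1, h3, fun j hj => sub_eq_zero.1 (h2 ⟨j, hj⟩)⟩
  intro hv
  apply hw0
  refine Prod.ext hv ?_
  funext B
  obtain ⟨j, hj, rfl⟩ := hκ B
  have := sub_eq_zero.1 (h2 ⟨j, hj⟩)
  rw [hv] at this
  have h0 : w.2 (κ j) * z j = 0 := this.symm
  rcases mul_eq_zero.1 h0 with h | h
  · exact h
  · exact absurd h (hz j hj)

end Pool.Agent.DCI57
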