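import Pool.Agent.DCI57.Relation
import Pool.Agent.DCI57.Pencil

/-!
# Vanishing of the part of the Chow group belonging to a character
-/

open Polynomial
open scoped LinearAlgebra.Projectivization

namespace Pool.Agent.DCI57

open Pool.Agent.ZCyc

universe u w

variable {k : Type u} [Field k] {J : Type} [Fintype J] [DecidableEq J] {m : ℕ} [NeZero m]

/-- products of `m`-th powers are `m`-th powers -/
lemma exists_pow_prod {A ι : Type*} [CommMonoid A] {s : Finset ι} {f : ι → A} {m : ℕ}
    (h : ∀ i ∈ s, ∃ Q, f i = Q ^ m) : ∃ Q, ∏ i ∈ s, f i = Q ^ m := by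
  classical
  induction s using Finset.induction_on with
  | empty => exact ⟨1, by simp⟩
  | insert i s hi ih =>
    obtain ⟨Q, hQ⟩ := ih fun j hj => h j (Finset.mem_insert_of_mem hj)
    obtain ⟨Q', hQ'⟩ := h i (Finset.mem_insert_self i s)
    exact ⟨Q' * Q, by rw [Finset.prod_insert hi, hQ, hQ', mul_pow]⟩

omit [DecidableEq J] in
/-- the Galois group acts trivially on the `m`-th root of the product -/
lemma sum_eq_zero_of_root {ζ : kˣ} (hζ : IsPrimitiveRoot (ζ : k) m) {F : Type*} [Field F]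
    [Algebra k F] [Algebra (RatFunc k) F] [IsScalarTower k (RatFunc k) F] {x : J → F}
    {P : J → k[X]}
    (hx : ∀ j, x j ^ m = algebraMap (RatFunc k) F (algebraMap k[X] (RatFunc k) (P j)))
    {S : Finset J} (hP : ∀ j ∈ S, P j ≠ 0) {a : J → ZMod m} (ha : ∀ j ∉ S, a j = 0) {Q : k[X]}
    (hQ : ∏ j ∈ S, P j ^ (a j).val = Q ^ m) {τ : F ≃ₐ[RatFunc k] F} {t : J → ZMod m}
    (ht : ∀ j, τ (x j) = algebraMap k F ((ζ ^ (t j).val : kˣ) : k) * x j) :
    ∑ j, a j * t j = 0 := by
  have hζ' : IsPrimitiveRoot (algebraMap k F (ζ : k)) m :=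
    hζ.map_of_injective (algebraMap k F).injective
  have hx0 : ∀ j ∈ S, x j ≠ 0 := by
    intro j hj h0
    have h1 := hx j
    rw [h0, zero_pow (NeZero.ne m)] at h1
    have h2 := (map_eq_zero _).1 h1.symm
    exact hP j hj ((map_eq_zero_iff _ (RatFunc.algebraMap_injective k)).1 h2)
  set y : F := ∏ j ∈ S, x j ^ (a j).val with hy
  have hy0 : y ≠ 0 := Finset.prod_ne_zero_iff.2 fun j hj => pow_ne_zero _ (hx0 j hj)
  have hym : y ^ m = (algebraMap (RatFunc k) F (algebraMap k[X] (RatFunc k) Q)) ^ m := by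
    rw [← map_pow, ← map_pow, ← hQ, hy, ← Finset.prod_pow, map_prod, map_prod]
    apply Finset.prod_congr rfl
    intro j _
    rw [← pow_mul, mul_comm, pow_mul, hx j, map_pow, map_pow]
  have hQ0 : algebraMap (RatFunc k) F (algebraMap k[X] (RatFunc k) Q) ≠ 0 := by
    intro h0
    rw [h0, zero_pow (NeZero.ne m)] at hym
    exact hy0 (pow_eq_zero_iff (NeZero.ne m) |>.1 hym)
  have hfix : τ y = y := by
    have h1 : (y / algebraMap (RatFunc k) F (algebraMap k[X] (RatFunc k) Q)) ^ m = 1 := by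
      rw [div_pow, hym, div_self (pow_ne_zero _ hQ0)]
    obtain ⟨i, -, h2⟩ := hζ'.eq_pow_of_pow_eq_one h1
    have h3 : y = algebraMap (RatFunc k) F (algebraMap k (RatFunc k) ((ζ : k) ^ i) *
        algebraMap k[X] (RatFunc k) Q) := by
      rw [map_mul, ← IsScalarTower.algebraMap_apply, map_pow, h2, div_mul_cancel₀ _ hQ0]
    rw [h3, AlgEquiv.commutes]
  have hτy : τ y = (algebraMap k F (ζ : k)) ^ (∑ j ∈ S, (t j).val * (a j).val) * y := by
    rw [hy, map_prod, ← Finset.prod_pow_eq_pow_sum, ← Finset.prod_mul_distrib]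
    apply Finset.prod_congr rfl
    intro j _
    rw [map_pow, ht j, mul_pow, Units.val_pow_eq_pow_val, map_pow, ← pow_mul]
  rw [hfix] at hτy
  have h4 : (algebraMap k F (ζ : k)) ^ (∑ j ∈ S, (t j).val * (a j).val) = 1 := by
    have h5 : ((algebraMap k F (ζ : k)) ^ (∑ j ∈ S, (t j).val * (a j).val) - 1) * y = 0 := by
      rw [sub_mul, one_mul, ← hτy, sub_self]
    rcases mul_eq_zero.1 h5 with h6 | h6
    · exact sub_eq_zero.1 h6
    · exact absurd h6 hy0
  have h7 := (hζ'.pow_eq_one_iff_dvd _).1 h4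
  have h8 : ((∑ j ∈ S, (t j).val * (a j).val : ℕ) : ZMod m) = 0 :=
    (ZMod.natCast_eq_zero_iff _ _).2 h7
  push_cast at h8
  simp only [ZMod.natCast_val, ZMod.cast_id', id_eq] at h8
  rw [← Finset.sum_subset (Finset.subset_univ S) (fun j _ hj => by rw [ha j hj, zero_mul]), ← h8]
  apply Finset.sum_congr rfl
  intro j _
  ring

variable {R : Type w} [Field R] [CharZero R]

/-- The part of the Chow group of zero-cycles belonging to the character `ψ` is zero if the
exponents of the character can be divided into sufficiently many zero-sum blocks. -/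
theorem vanish [IsAlgClosed k] [CharZero k] {ζ : kˣ} (hζ : IsPrimitiveRoot (ζ : k) m) {r : ℕ}
    (c : Fin r → J → k) {ω : R} (hω : IsPrimitiveRoot ω m) {a : J → ZMod m}
    {ψ : AddChar (J → ZMod m) R} (hψ : ∀ t, ψ t = ω ^ (∑ j, a j * t j).val)
    {S : Finset J} (hS : ∀ j, j ∈ S ↔ a j ≠ 0) (hne : S.Nonempty) {e : ℕ} (b : J → Fin e)
    (hb : ∀ B, ∃ j ∈ S, b j = B) (hsum : ∀ B, ∑ j ∈ S with b j = B, a j = 0)
    (hcard : S.card + r < Fintype.card J + e) {p : ℙ k (J → k)} (hp : p ∈ Diag m c) :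
    op ζ ψ (Finsupp.single p 1) ∈ ratEquiv R (Diag m c) := by
  classical
  have hζ1 : ζ ^ m = 1 := by
    apply Units.ext
    push_cast
    exact hζ.pow_eq_one
  have hm : 0 < m := NeZero.pos m
  have hsingle : ∀ j, ψ (Pi.single j 1) = ω ^ (a j).val := by
    intro j
    rw [hψ]
    congr 2
    rw [Finset.sum_eq_single j]
    · simp
    · intro i _ hij
      simp [Pi.single_eq_of_ne hij]
    · simp
  have hωa : ∀ j ∈ S, ω ^ (a j).val ≠ 1 := by
    intro j hj h1
    have h2 := (hω.pow_eq_one_iff_dvd _).1 h1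
    have h3 : (a j).val = 0 := Nat.eq_zero_of_dvd_of_lt h2 (ZMod.val_lt _)
    exact (hS j).1 hj ((ZMod.val_eq_zero _).1 h3)
  have hzero : ∀ q : ℙ k (J → k), (∃ j ∈ S, q.rep j = 0) → op ζ ψ (Finsupp.single q 1) = 0 := by
    rintro q ⟨j, hj, hqj⟩
    apply op_eq_zero hζ1 ψ (h := Pi.single j 1)
    · apply act_of_zero
      intro i hi
      by_cases hij : i = j
      · rw [hij, hqj]
      · exact absurd (Pi.single_eq_of_ne hij _) hi
    · rw [hsingle]
      exact hωa j hj
  by_cases hpz : ∃ j ∈ S, p.rep j = 0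
  · rw [hzero p hpz]
    exact Submodule.zero_mem _
  push Not at hpz
  obtain ⟨j₀, hj₀⟩ := hne
  -- the classes
  set κ : J → Option (Fin e) := fun j => if j = j₀ then none else some (b j) with hκdef
  have hκ : ∀ B, ∃ j ∈ S, κ j = B := by
    rintro (_ | B)
    · exact ⟨j₀, hj₀, by simp [hκdef]⟩
    · by_cases hB : ∃ j ∈ S, b j = B ∧ j ≠ j₀
      · obtain ⟨j, hj, hjB, hjj⟩ := hB
        exact ⟨j, hj, by simp [hκdef, hjj, hjB]⟩
      · exfalso
        push Not at hB
        obtain ⟨j, hj, hjB⟩ := hb B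
        have hjj := hB j hj hjB
        subst hjj
        have h1 := hsum B
        rw [Finset.sum_eq_single_of_mem j (Finset.mem_filter.2 ⟨hj, hjB⟩)] at h1
        · exact (hS j).1 hj h1
        · intro i hi hij
          rw [Finset.mem_filter] at hi
          exact absurd (hB i hi.1 hi.2) hij
  obtain ⟨v, β, hv0, hvc, hβ, hvβ⟩ := exists_pencil c (z := fun j => p.rep j ^ m) (S := S)
    (fun j hj => pow_ne_zero _ (hpz j hj)) κ hκ hcard
  obtain ⟨q, hq, e', he', hqv⟩ := exists_point (m := m) hv0 hvc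
  -- the normalising constant
  set β' : k := if β (some (b j₀)) = 0 then 1 else β (some (b j₀)) with hβ'
  have hβ'0 : β' ≠ 0 := by
    rw [hβ']
    split_ifs with h
    · exact one_ne_zero
    · exact h
  set P : J → k[X] := fun j => C (β' * p.rep j ^ m) * X ^ m + C (v j) * (1 - X ^ m) with hPdef
  have hP1 : ∀ j, (P j).eval 1 = β' * p.rep j ^ m := by
    intro j
    simp [hPdef]
  have hP0 : ∀ j, (P j).eval 0 = e' * q.rep j ^ m := by
    intro j
    simp [hPdef, hm.ne', hqv j]
  have hPc : ∀ i, ∑ j, C (c i j) * P j = 0 := by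
    intro i
    have h1 : ∀ j, C (c i j) * P j = C β' * X ^ m * C (c i j * p.rep j ^ m) +
        (1 - X ^ m) * C (c i j * v j) := by
      intro j
      simp only [hPdef, map_mul]
      ring
    rw [Finset.sum_congr rfl fun j _ => h1 j, Finset.sum_add_distrib, ← Finset.mul_sum,
      ← Finset.mul_sum, ← map_sum, ← map_sum, hp i, hvc i]
    simp
  -- the product is an `m`-th power
  have hroot : ∃ Q : k[X], ∏ j ∈ S, P j ^ (a j).val = Q ^ m := by
    rw [← Finset.prod_fiberwise S b]
    apply exists_pow_prod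
    intro B _
    have hPS : ∀ j ∈ S, P j = C (p.rep j ^ m) * (C β' * X ^ m + C (β (κ j)) * (1 - X ^ m)) := by
      intro j hj
      simp only [hPdef, hvβ j hj, map_mul]
      ring
    by_cases hB : B = b j₀
    · -- the block of `j₀`
      subst hB
      apply exists_pow_prod
      intro j hj
      rw [Finset.mem_filter] at hj
      obtain ⟨γ, hγ⟩ := IsAlgClosed.exists_pow_nat_eq β' hm
      have h2 : ∃ M : k[X], C β' * X ^ m + C (β (κ j)) * (1 - X ^ m) = M ^ m := by
        by_cases hjj : j = j₀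
        · refine ⟨C γ * X, ?_⟩
          have h3 : β (κ j) = 0 := by
            rw [hjj]
            simp [hκdef, hβ]
          rw [h3, mul_pow, ← map_pow, hγ]
          simp
        · have h3 : κ j = some (b j₀) := by
            simp [hκdef, hjj, hj.2]
          rw [h3]
          by_cases h4 : β (some (b j₀)) = 0
          · refine ⟨X, ?_⟩
            have h5 : β' = 1 := by rw [hβ', if_pos h4]
            rw [h4, h5]
            simp
          · refine ⟨C γ, ?_⟩
            have h5 : β' = β (some (b j₀)) := by rw [hβ', if_neg h4]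
            rw [← map_pow, hγ, h5]
            ring
      obtain ⟨M, hM⟩ := h2
      refine ⟨(C (p.rep j) * M) ^ (a j).val, ?_⟩
      rw [hPS j hj.1, hM]
      simp only [map_pow, mul_pow]
      ring
    · -- another block
      have h2 : ∀ j ∈ S.filter (fun j => b j = B), P j ^ (a j).val =
          (C (p.rep j) ^ (a j).val) ^ m *
            (C β' * X ^ m + C (β (some B)) * (1 - X ^ m)) ^ (a j).val := by
        intro j hj
        rw [Finset.mem_filter] at hj
        have hjj : j ≠ j₀ := by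
          rintro rfl
          exact hB hj.2.symm
        have h3 : κ j = some B := by
          simp [hκdef, hjj, hj.2]
        rw [hPS j hj.1, h3, mul_pow, map_pow, ← pow_mul, ← pow_mul, mul_comm m]
      rw [Finset.prod_congr rfl h2, Finset.prod_mul_distrib, Finset.prod_pow_eq_pow_sum]
      have h4 : m ∣ ∑ j ∈ S with b j = B, (a j).val := by
        rw [← ZMod.natCast_eq_zero_iff]
        push_cast
        simp only [ZMod.natCast_val, ZMod.cast_id', id_eq]
        exact hsum B
      obtain ⟨n, hn⟩ := h4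
      refine ⟨(∏ j ∈ S with b j = B, C (p.rep j) ^ (a j).val) *
        (C β' * X ^ m + C (β (some B)) * (1 - X ^ m)) ^ n, ?_⟩
      rw [hn, mul_pow, Finset.prod_pow, ← pow_mul, mul_comm m n]
  obtain ⟨Q, hQ⟩ := hroot
  have hPne : ∀ j ∈ S, P j ≠ 0 := by
    intro j hj h0
    have h1 := hP1 j
    rw [h0, eval_zero] at h1
    exact mul_ne_zero hβ'0 (pow_ne_zero _ (hpz j hj)) h1.symm
  obtain ⟨g, h, hgh⟩ := relation (R := R) hζ hPc hβ'0 he' hP1 hP0 ψ
    (fun {F} _ _ _ _ x hx τ t ht => by
      rw [hψ, sum_eq_zero_of_root hζ hx hPne (fun j hj => by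
        by_contra h0
        exact hj ((hS j).2 h0)) hQ ht]
      simp)
  -- the point `q` lies on a fixed hyperplane
  have hq0 : (act ζ h q).rep j₀ = 0 := by
    rw [act_rep_zero]
    have h1 := hqv j₀
    have h2 : v j₀ = 0 := by
      rw [hvβ j₀ hj₀]
      simp [hκdef, hβ]
    rw [h2] at h1
    have h3 := (mul_eq_zero.1 h1.symm).resolve_left he'
    exact pow_eq_zero_iff hm.ne' |>.1 h3
  rw [hzero _ ⟨j₀, hj₀, hq0⟩, sub_zero] at hgh
  rw [← op_act hζ1 ψ g p]
  exact Submodule.smul_mem _ _ hgh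

end Pool.Agent.DCI57
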